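import Mathlib
import Pool.Agent.H917R2.BP.Stm

/-! Tasks cutP, cutI, cutB, cutA of project BP (helper917). -/

set_option autoImplicit false

open scoped ComplexOrder InnerProductSpace ComplexConjugate Topology
open Filter

noncomputable section

namespace Pool.Agent.H278R2.BPcut

open H759R2.Kad H710R2.DP H917R2.Tr H917R2.BP

variable {H K : Type} [NormedAddCommGroup H] [InnerProductSpace ℂ H] [CompleteSpace H]
  [NormedAddCommGroup K] [InnerProductSpace ℂ K] [CompleteSpace K]

/-- from the corner to the big algebra -/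
def up (io : K →L[ℂ] H) (y : BH K) : BH H := io ∘L y ∘L ContinuousLinearMap.adjoint io

/-- from the big algebra to the corner -/
def dn (io : K →L[ℂ] H) (x : BH H) : BH K := ContinuousLinearMap.adjoint io ∘L x ∘L io

/-- linear version of `up` -/
def upL (io : K →L[ℂ] H) : BH K →ₗ[ℂ] BH H where
  toFun := up io
  map_add' x y := by ext v; simp [up]
  map_smul' c x := by ext v; simp [up]

/-- linear version of `dn` -/
def dnL (io : K →L[ℂ] H) : BH H →ₗ[ℂ] BH K where
  toFun := dn io
  map_add' x y := by ext v; simp [dn]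
  map_smul' c x := by ext v; simp [dn]

theorem star_up (io : K →L[ℂ] H) (y : BH K) : star (up io y) = up io (star y) := by
  unfold up
  rw [ContinuousLinearMap.star_eq_adjoint, ContinuousLinearMap.star_eq_adjoint,
    ContinuousLinearMap.adjoint_comp, ContinuousLinearMap.adjoint_comp,
    ContinuousLinearMap.adjoint_adjoint]
  rfl

theorem star_dn (io : K →L[ℂ] H) (x : BH H) : star (dn io x) = dn io (star x) := by
  unfold dn
  rw [ContinuousLinearMap.star_eq_adjoint, ContinuousLinearMap.star_eq_adjoint,
    ContinuousLinearMap.adjoint_comp, ContinuousLinearMap.adjoint_comp,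
    ContinuousLinearMap.adjoint_adjoint]
  rfl

section
variable {M : VonNeumannAlgebra H} {e : BH H} {N : VonNeumannAlgebra K} {io : K →L[ℂ] H}
  (h : Cor M e N io)
include h

theorem ai (v : K) : ContinuousLinearMap.adjoint io (io v) = v := by
  have := congrArg (fun f : K →L[ℂ] K => f v) h.isom
  simpa using this

theorem ia (v : H) : io (ContinuousLinearMap.adjoint io v) = e v := by
  have := congrArg (fun f : H →L[ℂ] H => f v) h.rng
  simpa using this

theorem norm_io (v : K) : ‖io v‖ = ‖v‖ := by
  have h1 : ⟪io v, io v⟫_ℂ = ⟪v, v⟫_ℂ := by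
    rw [← ContinuousLinearMap.adjoint_inner_right, ai h]
  have h2 : ‖io v‖ ^ 2 = ‖v‖ ^ 2 := by
    rw [← @inner_self_eq_norm_sq ℂ, ← @inner_self_eq_norm_sq ℂ, h1]
  exact (sq_eq_sq₀ (norm_nonneg _) (norm_nonneg _)).1 h2

theorem norm_io_le : ‖io‖ ≤ 1 :=
  ContinuousLinearMap.opNorm_le_bound _ zero_le_one fun v => by rw [norm_io h, one_mul]

theorem norm_ad (v : H) : ‖ContinuousLinearMap.adjoint io v‖ ≤ ‖v‖ := by
  have h1 : ‖ContinuousLinearMap.adjoint io‖ ≤ 1 := by
    rw [LinearIsometryEquiv.norm_map]; exact norm_io_le h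
  calc ‖ContinuousLinearMap.adjoint io v‖ ≤ ‖ContinuousLinearMap.adjoint io‖ * ‖v‖ :=
        ContinuousLinearMap.le_opNorm _ _
    _ ≤ 1 * ‖v‖ := mul_le_mul_of_nonneg_right h1 (norm_nonneg _)
    _ = ‖v‖ := one_mul _

theorem norm_up_le (y : BH K) : ‖up io y‖ ≤ ‖y‖ := by
  refine ContinuousLinearMap.opNorm_le_bound _ (norm_nonneg _) fun v => ?_
  change ‖io (y (ContinuousLinearMap.adjoint io v))‖ ≤ _
  rw [norm_io h]
  exact (y.le_opNorm _).trans (mul_le_mul_of_nonneg_left (norm_ad h v) (norm_nonneg _))

theorem norm_dn_le (x : BH H) : ‖dn io x‖ ≤ ‖x‖ := by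
  refine ContinuousLinearMap.opNorm_le_bound _ (norm_nonneg _) fun v => ?_
  change ‖ContinuousLinearMap.adjoint io (x (io v))‖ ≤ _
  refine (norm_ad h _).trans ((x.le_opNorm _).trans ?_)
  rw [norm_io h]

theorem up_mul (y y' : BH K) : up io (y * y') = up io y * up io y' := by
  ext v
  change io (y (y' (ContinuousLinearMap.adjoint io v))) =
    io (y (ContinuousLinearMap.adjoint io (io (y' (ContinuousLinearMap.adjoint io v)))))
  rw [ai h]

theorem dn_up (y : BH K) : dn io (up io y) = y := by
  ext v
  change ContinuousLinearMap.adjoint io (io (y (ContinuousLinearMap.adjoint io (io v)))) = y v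
  rw [ai h, ai h]

theorem up_dn (x : BH H) : up io (dn io x) = e * x * e := by
  ext v
  change io (ContinuousLinearMap.adjoint io (x (io (ContinuousLinearMap.adjoint io v)))) =
    e (x (e v))
  rw [ia h, ia h]

theorem dn_mul (x x' : BH H) : dn io x * dn io x' = dn io (x * e * x') := by
  ext v
  change ContinuousLinearMap.adjoint io (x (io (ContinuousLinearMap.adjoint io (x' (io v))))) =
    ContinuousLinearMap.adjoint io (x (e (x' (io v))))
  rw [ia h]

theorem up_one : up io 1 = e := by
  ext v
  exact ia h v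

theorem dn_e : dn io e = 1 := by rw [← up_one h, dn_up h]

theorem up_inj {y y' : BH K} (hy : up io y = up io y') : y = y' := by
  rw [← dn_up h y, hy, dn_up h]

theorem e_mul_up (y : BH K) : e * up io y = up io y := by
  rw [← up_one h, ← up_mul h, one_mul]

theorem up_mul_e (y : BH K) : up io y * e = up io y := by
  rw [← up_one h, ← up_mul h, mul_one]

theorem mem_up {y : BH K} (hy : y ∈ N) : up io y ∈ M := (h.mem y).1 hy

theorem e_mem : e ∈ M := by
  rw [← up_one h]; exact mem_up h (one_mem N)

theorem mem_dn {x : BH H} (hx : x ∈ M) : dn io x ∈ N := by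
  rw [h.mem]
  change up io (dn io x) ∈ M
  rw [up_dn h]
  exact mul_mem (mul_mem (e_mem h) hx) (e_mem h)

theorem e_pr : IsPr e := by
  rw [← up_one h]
  refine ⟨?_, ?_⟩
  · rw [star_up, star_one]
  · rw [← up_mul h, one_mul]

theorem colB_up {ι : Type} [Fintype ι] {x : ι → BH K} {c : ℝ} (hc : 0 ≤ c) (hx : ColB x c) :
    ColB (fun i => up io (x i)) c := by
  intro η
  calc ∑ i, ‖up io (x i) η‖ ^ 2 = ∑ i, ‖x i (ContinuousLinearMap.adjoint io η)‖ ^ 2 := by
        refine Finset.sum_congr rfl fun i _ => ?_
        congr 1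
        exact norm_io h _
    _ ≤ c * ‖ContinuousLinearMap.adjoint io η‖ ^ 2 := hx _
    _ ≤ c * ‖η‖ ^ 2 := by
        apply mul_le_mul_of_nonneg_left _ hc
        exact pow_le_pow_left₀ (norm_nonneg _) (norm_ad h η) 2

theorem colB_dn {ι : Type} [Fintype ι] {x : ι → BH H} {c : ℝ} (hx : ColB x c) :
    ColB (fun i => dn io (x i)) c := by
  intro η
  calc ∑ i, ‖dn io (x i) η‖ ^ 2 ≤ ∑ i, ‖x i (io η)‖ ^ 2 := by
        refine Finset.sum_le_sum fun i _ => ?_
        exact pow_le_pow_left₀ (norm_nonneg _) (norm_ad h _) 2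
    _ ≤ c * ‖io η‖ ^ 2 := hx _
    _ = c * ‖η‖ ^ 2 := by rw [norm_io h]

end

omit [CompleteSpace K] in
theorem colB_triv {ι : Type} [Fintype ι] (hK : ∀ v : K, v = 0) (x : ι → BH K) (c : ℝ) :
    ColB x c := by
  intro η
  rw [hK η]
  simp

theorem t_cutP : S_cutP := by
  intro H K _ _ _ _ _ _ M e N io h P C hC hP
  refine ⟨dnL io ∘ₗ P ∘ₗ upL io, ⟨?_, ?_, ?_⟩, ?_⟩
  · intro x
    change ‖dn io (P (up io x))‖ ≤ _
    calc ‖dn io (P (up io x))‖ ≤ ‖P (up io x)‖ := norm_dn_le h _
      _ ≤ C * ‖up io x‖ := hP.bd _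
      _ ≤ C * ‖x‖ := mul_le_mul_of_nonneg_left (norm_up_le h x) hC
  · intro x
    exact mem_dn h (hP.mem _)
  · intro m hm
    change dn io (P (up io m)) = m
    rw [hP.id _ (mem_up h hm), dn_up h]
  · intro κ hκ n x c r hx hr
    by_cases hK : ∀ v : K, v = 0
    · exact ⟨colB_triv hK _ _, colB_triv hK _ _⟩
    push Not at hK
    obtain ⟨v, hv⟩ := hK
    have hnn : ∀ (y : Fin n → BH K) (b : ℝ), ColB y b → 0 ≤ b := by
      intro y b hy
      have h1 := hy v
      have h2 : 0 ≤ b * ‖v‖ ^ 2 := le_trans (Finset.sum_nonneg fun i _ => by positivity) h1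
      have h3 : 0 < ‖v‖ ^ 2 := by positivity
      exact nonneg_of_mul_nonneg_left h2 h3
    have hc := hnn _ _ hx
    have hr0 := hnn _ _ hr
    have hx' := colB_up h hc hx
    have hr' : RowB (fun i => up io (x i)) r := by
      have := colB_up h hr0 hr
      unfold RowB
      simpa only [star_up] using this
    obtain ⟨g1, g2⟩ := hκ n _ c r hx' hr'
    refine ⟨colB_dn h g1, ?_⟩
    have := colB_dn h g2
    unfold RowB
    intro η
    have h3 := this η
    simp only [← star_dn] at h3
    exact h3

theorem t_cutI : S_cutI := by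
  intro H K _ _ _ _ _ _ M e N io h hN
  obtain ⟨E, hE1, hE2, hE3⟩ := hN
  refine ⟨upL io ∘ₗ E ∘ₗ dnL io, ?_, ?_, ?_⟩
  · intro x
    change ‖up io (E (dn io x))‖ ≤ _
    exact (norm_up_le h _).trans ((hE1 _).trans (norm_dn_le h _))
  · intro x
    exact mem_up h (hE2 _)
  · intro m hm
    change up io (E (dn io m)) = _
    rw [hE3 _ (mem_dn h hm), one_mul, mul_one, up_dn h]

theorem t_cutA : S_cutA := by
  intro H K _ _ _ _ _ _ M z N io h hz hA
  obtain ⟨n, f, hf, hx⟩ := hA
  have hzf : ∀ i j, z * f i j = f i j := by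
    intro i j
    rw [← hf.sum, Finset.sum_mul, Finset.sum_eq_single i]
    · rw [hf.mul, if_pos rfl]
    · intro k _ hk
      rw [hf.mul, if_neg hk]
    · intro hi; exact absurd (Finset.mem_univ i) hi
  have hfz : ∀ i j, f i j * z = f i j := by
    intro i j
    rw [← hf.sum, Finset.mul_sum, Finset.sum_eq_single j]
    · rw [hf.mul, if_pos rfl]
    · intro k _ hk
      rw [hf.mul, if_neg (Ne.symm hk)]
    · intro hi; exact absurd (Finset.mem_univ j) hi
  have hd0 : dn io (0 : BH H) = 0 := (dnL io).map_zero
  refine ⟨n, fun i j => dn io (f i j), ⟨fun i j => mem_dn h (hf.mem i j), ?_, ?_, ?_⟩, ?_⟩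
  · intro i j
    rw [star_dn, hf.adj]
  · intro i j k l
    rw [dn_mul h, hfz, hf.mul]
    split_ifs
    · rfl
    · exact hd0
  · have : ∑ i, dn io (f i i) = dn io (∑ i, f i i) := (map_sum (dnL io) _ _).symm
    rw [this, hf.sum, dn_e h]
  · intro y hy ε hε
    obtain ⟨z', hz', hle⟩ := hx (up io y) (mem_up h hy) ε hε
    refine ⟨dn io z', ⟨mem_dn h hz'.1, ?_⟩, ?_⟩
    · intro b hb
      have h1 : dn io z' * b = dn io (z' * up io b) := by
        conv_lhs => rw [← dn_up h b]
        rw [dn_mul h, mul_assoc, e_mul_up h]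
      have h2 : b * dn io z' = dn io (up io b * z') := by
        conv_lhs => rw [← dn_up h b]
        rw [dn_mul h, up_mul_e h]
      rw [h1, h2, hz'.2 _ (mem_up h hb)]
    · have h1 : dn io (f 0 0) * y * dn io (f 0 0) - dn io z' * dn io (f 0 0) =
          dn io (f 0 0 * up io y * f 0 0 - z' * f 0 0) := by
        have h2 : dn io (f 0 0) * y = dn io (f 0 0 * up io y) := by
          conv_lhs => rw [← dn_up h y]
          rw [dn_mul h, hfz]
        rw [h2, dn_mul h, dn_mul h, mul_assoc (f 0 0) (up io y) z, up_mul_e h,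
          mul_assoc z' z, hzf]
        exact ((dnL io).map_sub _ _).symm
      rw [h1]
      exact (norm_dn_le h _).trans hle

theorem t_cutB (hV : V_ab) : S_cutB := by
  intro H K _ _ _ _ _ _ M e N io h z hz hze hNA hF
  have hez : e * z = e := by
    have := hz.2.2 e (e_mem h)
    rw [← this, hze]
  have hzu : ∀ y, z * up io y = up io y := by
    intro y
    rw [← e_mul_up h, ← mul_assoc, hze]
  constructor
  · intro f hf hfp _ hab
    have hf'M : up io f ∈ M := mem_up h hf
    have hf'p : IsPr (up io f) := ⟨by rw [star_up, hfp.1], by rw [← up_mul h, hfp.2]⟩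
    have hcomm : ∀ a ∈ N, ∀ b ∈ N, f * a * f = a → f * b = b → b * f = b → a * b = b * a := by
      intro a ha b hb ha' hb1 hb2
      have key : ∀ ε : ℝ, 0 < ε → ‖a * b - b * a‖ ≤ 2 * ε * ‖b‖ := by
        intro ε hε
        obtain ⟨w, hw, hle⟩ := hab a ha ε hε
        rw [ha'] at hle
        have e1 : a * b - b * a = (a - w * f) * b - b * (a - w * f) := by
          have e2 : w * f * b = b * (w * f) := by
            rw [mul_assoc, hb1, ← mul_assoc, ← hw.2 b hb, mul_assoc, hb2]
          rw [sub_mul, mul_sub, e2]; abel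
        rw [e1]
        calc ‖(a - w * f) * b - b * (a - w * f)‖ ≤ ‖(a - w * f) * b‖ + ‖b * (a - w * f)‖ :=
              norm_sub_le _ _
          _ ≤ ‖a - w * f‖ * ‖b‖ + ‖b‖ * ‖a - w * f‖ := add_le_add (norm_mul_le _ _)
              (norm_mul_le _ _)
          _ ≤ ε * ‖b‖ + ‖b‖ * ε := add_le_add (mul_le_mul_of_nonneg_right hle (norm_nonneg _))
              (mul_le_mul_of_nonneg_left hle (norm_nonneg _))
          _ = 2 * ε * ‖b‖ := by ring
      have h0 : ‖a * b - b * a‖ ≤ 0 := by
        refine le_of_forall_pos_le_add fun δ hδ => ?_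
        have hb0 : 0 < 2 * (‖b‖ + 1) := by positivity
        refine (key (δ / (2 * (‖b‖ + 1))) (by positivity)).trans ?_
        rw [zero_add]
        have : 2 * (δ / (2 * (‖b‖ + 1))) * ‖b‖ = δ * (‖b‖ / (‖b‖ + 1)) := by
          field_simp
        rw [this]
        have h3 : ‖b‖ / (‖b‖ + 1) ≤ 1 := by
          rw [div_le_one (by positivity)]; linarith
        nlinarith
      exact sub_eq_zero.1 (norm_le_zero_iff.1 h0)
    have hab' : IsAb M (up io f) := by
      refine hV H M (up io f) hf'M hf'p ?_
      intro v hv hvpi hv1 hv2 hvv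
      have hev : e * v * e = v := by
        rw [← hv1, ← mul_assoc, e_mul_up h, hv1]
        conv_lhs => rw [← hv2, mul_assoc, up_mul_e h, hv2]
      have hvN : dn io v ∈ N := mem_dn h hv
      have hvu : up io (dn io v) = v := by rw [up_dn h, hev]
      have hw1 : f * dn io v = dn io v := by
        apply up_inj h; rw [up_mul h, hvu, hv1]
      have hw2 : dn io v * f = dn io v := by
        apply up_inj h; rw [up_mul h, hvu, hv2]
      have hs1 : f * star (dn io v) = star (dn io v) := by
        have := congrArg star hw2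
        rwa [star_mul, hfp.1] at this
      have hs2 : star (dn io v) * f = star (dn io v) := by
        have := congrArg star hw1
        rwa [star_mul, hfp.1] at this
      have hcm := hcomm (dn io v) hvN (star (dn io v)) (star_mem hvN) (by rw [hw1, hw2]) hs1 hs2
      have hvs : v * star v = star v * v := by
        have := congrArg (up io) hcm
        rwa [up_mul h, up_mul h, ← star_up, hvu] at this
      have hq : star v * v * (star v * v) = 0 := by
        calc star v * v * (star v * v) = star v * (v * star v) * v := by simp only [mul_assoc]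
          _ = star v * star v * (v * v) := by rw [hvs]; simp only [mul_assoc]
          _ = 0 := by rw [hvv, mul_zero]
      have h1 : star v * v = 0 := by
        have h2 : star (star v * v) * (star v * v) = 0 := by
          rw [star_mul, star_star]; exact hq
        have h3 := CStarRing.norm_star_mul_self (x := star v * v)
        rw [h2, norm_zero] at h3
        exact norm_eq_zero.1 (by nlinarith [norm_nonneg (star v * v)])
      have h3 := CStarRing.norm_star_mul_self (x := v)
      rw [h1, norm_zero] at h3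
      exact norm_eq_zero.1 (by nlinarith [norm_nonneg v])
    have h0 := hNA (up io f) hf'M hf'p (hzu f) hab'
    apply up_inj h
    rw [h0]
    exact ((upL io).map_zero).symm
  · intro v hv hv1 _
    have hep := e_pr h
    have hsz : star z = z := hz.1.1
    have hzz : z * z = z := hz.1.2
    have hq1 : (z - e) * up io v = 0 := by
      rw [sub_mul, hzu, e_mul_up h, sub_self]
    have hq2 : ∀ y, (z - e) * up io y = 0 := by
      intro y; rw [sub_mul, hzu, e_mul_up h, sub_self]
    have hsq : star (z - e) = z - e := by rw [star_sub, hsz, hep.1]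
    have hq3 : ∀ y, up io y * (z - e) = 0 := by
      intro y
      have := congrArg star (hq2 (star y))
      rw [star_mul, hsq, star_up, star_star, star_zero] at this
      exact this
    have hqq : (z - e) * (z - e) = z - e := by
      rw [sub_mul, mul_sub, mul_sub, hzz, hze, hez, hep.2]; abel
    have hM' : up io v + (z - e) ∈ M := add_mem (mem_up h hv) (sub_mem hz.2.1 (e_mem h))
    have h1 : star (up io v + (z - e)) * (up io v + (z - e)) = z := by
      rw [star_add, hsq, star_up, add_mul, mul_add, mul_add, ← up_mul h, hv1, up_one h, hq2,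
        hq3, hqq]
      abel
    have h2 : z * (up io v + (z - e)) = up io v + (z - e) := by
      rw [mul_add, hzu, mul_sub, hzz, hze]
    have h3 := hF _ hM' h1 h2
    rw [star_add, hsq, star_up, add_mul, mul_add, mul_add, ← up_mul h, hq2, hq3, hqq] at h3
    apply up_inj h
    rw [up_one h]
    have h4 : up io (v * star v) + 0 + (0 + (z - e)) - (z - e) = z - (z - e) := by rw [h3]
    simpa using h4

end Pool.Agent.H278R2.BPcut
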