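import Pool.Agent.H531R2.D4.Api

/-!
# Residue and trace of logarithmic forms
-/

set_option autoImplicit false

namespace Pool.Agent.H531R2.D4

open Polynomial

section Gen

/-- reduction of the coordinates of a tuple one after the other -/
theorem coord_red {m : ℕ} {E : Type} (G S : Fin m → Set E) (hSG : ∀ k, S k ⊆ G k)
    (Q : (Fin m → E) → Prop)
    (hstep : ∀ (f : Fin m → E) (j : Fin m), (∀ k, f k ∈ G k) →
      (∀ s ∈ S j, Q (Function.update f j s)) → Q f)
    (hS : ∀ f : Fin m → E, (∀ k, f k ∈ S k) → Q f) (f : Fin m → E) (hf : ∀ k, f k ∈ G k) :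
    Q f := by
  classical
  have key : ∀ T : Finset (Fin m), ∀ f : Fin m → E, (∀ k, f k ∈ G k) → (∀ k, k ∉ T → f k ∈ S k) →
      Q f := by
    intro T
    induction T using Finset.induction_on with
    | empty => intro f _ h2; exact hS f fun k => h2 k (Finset.notMem_empty k)
    | insert j T hj ih =>
      intro f h1 h2
      refine hstep f j h1 fun s hs => ih _ ?_ ?_
      · intro k
        by_cases hk : k = j
        · subst hk; rw [Function.update_self]; exact hSG _ hs
        · rw [Function.update_of_ne hk]; exact h1 k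
      · intro k hk
        by_cases hkj : k = j
        · subst hkj; rw [Function.update_self]; exact hs
        · rw [Function.update_of_ne hkj]
          exact h2 k fun h => (Finset.mem_insert.1 h).elim hkj hk
  exact key Finset.univ f hf fun k hk => absurd (Finset.mem_univ k) hk

variable {F : Type} [Field F] {P : F[X]}

local notation "ι" => algebraMap F[X] (RatFunc F)

theorem gen_one (hP : Irreducible P) (R : RatFunc F → Prop)
    (hmul : ∀ x y, x ≠ 0 → y ≠ 0 → R x → R y → R (x * y))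
    (hinv : ∀ x, x ≠ 0 → R x → R x⁻¹) (h1 : R (ι P)) (h2 : ∀ a : F[X], ¬ P ∣ a → R (ι a))
    (x : RatFunc F) (hx : x ≠ 0) : R x := by
  have hpow : ∀ n : ℕ, R (ι (P ^ n)) := by
    intro n
    induction n with
    | zero => rw [pow_zero]; exact h2 1 fun h => hP.not_isUnit (isUnit_of_dvd_one h)
    | succ n ih =>
      rw [pow_succ, map_mul]
      exact hmul _ _ (ι_ne (pow_ne_zero _ hP.ne_zero)) (ι_ne hP.ne_zero) ih h1
  have hpoly : ∀ U : F[X], U ≠ 0 → R (ι U) := by
    intro U hU
    obtain ⟨a, ha, ha'⟩ :=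
      (FiniteMultiplicity.of_not_isUnit hP.not_isUnit hU).exists_eq_pow_mul_and_not_dvd
    rw [ha, map_mul]
    exact hmul _ _ (ι_ne (pow_ne_zero _ hP.ne_zero)) (ι_ne (ne_of_not_dvd ha')) (hpow _) (h2 _ ha')
  obtain ⟨U, V, hV, rfl⟩ := IsFractionRing.div_surjective (A := F[X]) x
  have hV0 : V ≠ 0 := nonZeroDivisors.ne_zero hV
  have hU0 : U ≠ 0 := by
    rintro rfl
    exact hx (by rw [map_zero, zero_div])
  rw [div_eq_mul_inv]
  exact hmul _ _ (ι_ne hU0) (inv_ne_zero (ι_ne hV0)) (hpoly U hU0) (hinv _ (ι_ne hV0) (hpoly V hV0))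

theorem gen_two (R : F[X] → Prop) (d : ℕ) (hmul : ∀ a b, a ≠ 0 → b ≠ 0 → R a → R b → R (a * b))
    (hc : ∀ c : F, c ≠ 0 → R (C c))
    (hirr : ∀ p : F[X], p.Monic → Irreducible p → p.natDegree < d → R p) (a : F[X]) (ha : a ≠ 0)
    (had : a.natDegree < d) : R a := by
  revert ha had
  refine WfDvdMonoid.induction_on_irreducible (motive := fun a => a ≠ 0 → a.natDegree < d → R a)
    a (fun h => absurd rfl h) ?_ ?_
  · intro u hu _ _
    obtain ⟨c, hc0, hcu⟩ := Polynomial.isUnit_iff.1 hu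
    rw [← hcu]
    exact hc c hc0.ne_zero
  · intro a i ha hi ih _ hd
    have hi0 := hi.ne_zero
    rw [natDegree_mul hi0 ha] at hd
    have h1 : i = i * C i.leadingCoeff⁻¹ * C i.leadingCoeff := by
      rw [mul_assoc, ← C_mul, inv_mul_cancel₀ (leadingCoeff_ne_zero.2 hi0), C_1, mul_one]
    have h2 : R (i * C i.leadingCoeff⁻¹) := by
      refine hirr _ (monic_mul_leadingCoeff_inv hi0) (irreducible_mul_leadingCoeff_inv.2 hi) ?_
      rw [natDegree_mul_C (inv_ne_zero (leadingCoeff_ne_zero.2 hi0))]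
      omega
    refine hmul _ _ hi0 ha ?_ (ih ha (by omega))
    rw [h1]
    exact hmul _ _ (monic_mul_leadingCoeff_inv hi0).ne_zero
      (C_ne_zero.2 (leadingCoeff_ne_zero.2 hi0)) h2 (hc _ (leadingCoeff_ne_zero.2 hi0))

/-- partial fractions: the sum of the top coefficients of the numerators vanishes -/
theorem sum_top {α : Type} [DecidableEq α] (s : Finset α) (p : α → F[X])
    (hp : ∀ k ∈ s, Irreducible (p k)) (hm : ∀ k ∈ s, (p k).Monic)
    (hinj : ∀ k ∈ s, ∀ l ∈ s, p k = p l → k = l) (N : F[X])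
    (hN : N.natDegree + 2 ≤ ∑ k ∈ s, (p k).natDegree) (c : α → F[X])
    (hc : ∀ k ∈ s, Comp (p k) (ι N / ι (∏ k ∈ s, p k)) (c k)) :
    ∑ k ∈ s, (c k).coeff ((p k).natDegree - 1) = 0 := by
  have hndvd : ∀ k ∈ s, ¬ p k ∣ ∏ l ∈ s.erase k, p l := by
    intro k hk h
    obtain ⟨l, hl, hkl⟩ := ((hp k hk).prime.dvd_finsetProd_iff _).1 h
    have hl' := Finset.mem_erase.1 hl
    have h1 := eq_of_monic_of_associated (hm k hk) (hm l hl'.2)
      ((hp k hk).associated_of_dvd (hp l hl'.2) hkl)
    exact hl'.1 (hinj k hk l hl'.2 h1).symm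
  set N' : F[X] := N - ∑ k ∈ s, c k * ∏ l ∈ s.erase k, p l with hN'
  have hprod : ∀ k ∈ s, ∏ l ∈ s, p l = p k * ∏ l ∈ s.erase k, p l := fun k hk =>
    (Finset.mul_prod_erase s p hk).symm
  have hdvd : ∀ k ∈ s, p k ∣ N' := by
    intro k hk
    have h1 := hc k hk
    rw [hprod k hk, map_mul] at h1
    have h2 := dvd_of_comp (hp k hk) (hndvd k hk) h1
    have h3 : N' = -(c k * ∏ l ∈ s.erase k, p l - N) -
        ∑ j ∈ s.erase k, c j * ∏ l ∈ s.erase j, p l := by
      rw [hN', ← Finset.add_sum_erase s _ hk]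
      ring
    rw [h3]
    refine dvd_sub ((dvd_neg).2 h2) (Finset.dvd_sum fun j hj => ?_)
    refine dvd_mul_of_dvd_right (Finset.dvd_prod_of_mem _ ?_) _
    rw [Finset.mem_erase] at hj ⊢
    exact ⟨hj.1.symm, hk⟩
  have hdvd' : ∏ k ∈ s, p k ∣ N' := by
    refine Finset.prod_dvd_of_coprime ?_ hdvd
    intro k hk l hl hkl
    refine ((hp k hk).coprime_iff_not_dvd).2 fun h => hkl ?_
    exact hinj k hk l hl (eq_of_monic_of_associated (hm k hk) (hm l hl)
      ((hp k hk).associated_of_dvd (hp l hl) h))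
  have hmon : (∏ k ∈ s, p k).Monic := monic_prod_of_monic s p hm
  have hpos : ∀ k ∈ s, 1 ≤ (p k).natDegree := fun k hk => (hp k hk).natDegree_pos
  have hcd : ∀ k ∈ s, (c k).natDegree ≤ (p k).natDegree - 1 := by
    intro k hk
    have h1 := (hc k hk).1
    by_cases h0 : c k = 0
    · rw [h0, natDegree_zero]; exact Nat.zero_le _
    · have h2 := natDegree_lt_natDegree h0 h1
      omega
  have hdeg : ∀ k ∈ s, (∏ l ∈ s.erase k, p l).natDegree = ∑ l ∈ s.erase k, (p l).natDegree :=
    fun k hk => natDegree_prod_of_monic _ _ fun l hl => hm l (Finset.mem_of_mem_erase hl)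
  have hadd : ∀ k ∈ s, (p k).natDegree + ∑ l ∈ s.erase k, (p l).natDegree =
      ∑ l ∈ s, (p l).natDegree := fun k hk =>
      Finset.add_sum_erase s (fun l => (p l).natDegree) hk
  have hterm : ∀ k ∈ s, (c k * ∏ l ∈ s.erase k, p l).natDegree ≤
      (∑ l ∈ s, (p l).natDegree) - 1 := by
    intro k hk
    refine natDegree_mul_le.trans ?_
    have h1 := hcd k hk
    have h2 := hdeg k hk
    have h3 := hadd k hk
    have h4 := hpos k hk
    omega
  have hN'0 : N' = 0 := by
    refine Polynomial.eq_zero_of_dvd_of_natDegree_lt hdvd' ?_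
    rw [natDegree_prod_of_monic s p hm]
    have h1 : N'.natDegree ≤ (∑ l ∈ s, (p l).natDegree) - 1 := by
      refine (natDegree_sub_le _ _).trans (max_le (by omega) ?_)
      exact natDegree_sum_le_of_forall_le _ _ hterm
    omega
  have h5 : N = ∑ k ∈ s, c k * ∏ l ∈ s.erase k, p l := sub_eq_zero.1 hN'0
  have h6 : N.coeff ((∑ l ∈ s, (p l).natDegree) - 1) = 0 :=
    coeff_eq_zero_of_natDegree_lt (by omega)
  rw [h5, finsetSum_coeff] at h6
  rw [← h6]
  refine Finset.sum_congr rfl fun k hk => ?_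
  have h7 := coeff_mul_add_eq_of_natDegree_le (hcd k hk) (hdeg k hk).le
  have h8 : (p k).natDegree - 1 + ∑ l ∈ s.erase k, (p l).natDegree =
      (∑ l ∈ s, (p l).natDegree) - 1 := by
    have h3 := hadd k hk
    have h4 := hpos k hk
    omega
  rw [h8] at h7
  rw [h7]
  have h9 : (∏ l ∈ s.erase k, p l).coeff (∑ l ∈ s.erase k, (p l).natDegree) = 1 := by
    rw [← hdeg k hk]
    exact (monic_prod_of_monic _ _ fun l hl => hm l (Finset.mem_of_mem_erase hl)).coeff_natDegree
  rw [h9, mul_one]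

end Gen

section A
variable {K F : Type} [Field K] [Field F] [Algebra K F] {I : Type} (D : I → Derivation K F F)

local notation "ι" => algebraMap F[X] (RatFunc F)

/-- the derivations on polynomials -/
noncomputable def dp : Option I → F[X] → F[X]
  | none => fun p => derivative p
  | some i => fun p => mapD (D i) p

theorem DX_pol (w : Option I) (p : F[X]) : DX D w (ι p) = ι (dp D w p) := by
  cases w with
  | none => exact DX_none D p
  | some i => exact DX_some D i p

theorem dp_mul (w : Option I) (p r : F[X]) : dp D w (p * r) = p * dp D w r + r * dp D w p := by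
  cases w with
  | none =>
    change derivative (p * r) = p * derivative r + r * derivative p
    rw [derivative_mul]; ring
  | some i =>
    change mapD (D i) (p * r) = p * mapD (D i) r + r * mapD (D i) p
    rw [Derivation.leibniz, smul_eq_mul, smul_eq_mul]

theorem dp_add (w : Option I) (p r : F[X]) : dp D w (p + r) = dp D w p + dp D w r := by
  cases w with
  | none => exact derivative_add
  | some i => exact map_add (mapD (D i)) p r

theorem natDegree_dp (w : Option I) {p : F[X]} (hp : p.Monic) :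
    (dp D w p).natDegree ≤ p.natDegree - 1 := by
  cases w with
  | none => exact natDegree_derivative_le p
  | some i =>
    rw [natDegree_le_iff_coeff_eq_zero]
    intro N hN
    change (mapD (D i) p).coeff N = 0
    rw [coeff_mapD]
    rcases lt_trichotomy N p.natDegree with h | h | h
    · omega
    · rw [h, hp.coeff_natDegree, (D i).map_one_eq_zero]
    · rw [coeff_eq_zero_of_natDegree_lt h, map_zero]

theorem natDegree_dp_C (w : Option I) (c : F) : (dp D w (C c)).natDegree = 0 := by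
  cases w with
  | none =>
    change (derivative (C c)).natDegree = 0
    rw [derivative_C, natDegree_zero]
  | some i =>
    change (mapD (D i) (C c)).natDegree = 0
    rw [mapD_C, natDegree_C]

/-- the determinant on polynomials -/
noncomputable def Jd {m : ℕ} (g : Fin m → F[X]) (w : Fin m → Option I) : F[X] :=
  (Matrix.of fun i k => dp D (w i) (g k)).det

theorem lam_pol {m : ℕ} (g : Fin m → F[X]) (w : Fin m → Option I) :
    lam (DX D) (fun k => ι (g k)) w = ι (Jd D g w) / ι (∏ k, g k) := by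
  have h1 : (Matrix.of fun i j => DX D (w i) (ι (g j)) / ι (g j)) =
      Matrix.of fun i j => (ι (g j))⁻¹ * (Matrix.of fun i k => ι (dp D (w i) (g k))) i j := by
    ext i j
    rw [Matrix.of_apply, Matrix.of_apply, Matrix.of_apply, DX_pol, div_eq_mul_inv, mul_comm]
  rw [lam, h1, Matrix.det_mul_row, Finset.prod_inv_distrib, Jd, RingHom.map_det, map_prod,
    div_eq_mul_inv, mul_comm]
  rfl

theorem lam_eq_zero_of_eq {E J : Type} [Field E] [Algebra K E] (D' : J → Derivation K E E) {m : ℕ}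
    (f : Fin m → E) (w : Fin m → J) {i j : Fin m} (hij : i ≠ j) (h : f i = f j) :
    lam D' f w = 0 := by
  rw [lam]
  apply Matrix.det_zero_of_column_eq hij
  intro k
  rw [Matrix.of_apply, Matrix.of_apply, h]

theorem lam_update_one {E J : Type} [Field E] [Algebra K E] (D' : J → Derivation K E E) {m : ℕ}
    (f : Fin m → E) (j : Fin m) : lam D' (Function.update f j 1) = 0 := by
  funext w
  rw [lam]
  apply Matrix.det_eq_zero_of_column_eq_zero j
  intro i
  rw [Matrix.of_apply, Function.update_self, Derivation.map_one_eq_zero, zero_div]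

theorem lam_update_inv {E J : Type} [Field E] [Algebra K E] (D' : J → Derivation K E E) {m : ℕ}
    (f : Fin m → E) (j : Fin m) {x : E} (hx : x ≠ 0) :
    lam D' (Function.update f j x⁻¹) = - lam D' (Function.update f j x) := by
  have h1 := lam_update_mul D' f j hx (inv_ne_zero hx)
  rw [mul_inv_cancel₀ hx, lam_update_one] at h1
  exact eq_neg_of_add_eq_zero_right h1.symm

variable {D}

/-- the determinant modulo `P` only depends on the entries modulo `P` -/
theorem Jd_mod {m : ℕ} {P : F[X]} (g g' : Fin m → F[X]) (j₀ : Fin m) (h1 : g j₀ = P)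
    (h2 : g' j₀ = P) (h : ∀ k, P ∣ g k - g' k) (w : Fin m → Option I) :
    P ∣ Jd D g w - Jd D g' w := by
  classical
  rw [← Ideal.Quotient.eq_zero_iff_dvd, map_sub, sub_eq_zero]
  set φ := Ideal.Quotient.mk (Ideal.span {P}) with hφ
  have hφP : φ P = 0 := by
    rw [hφ, Ideal.Quotient.eq_zero_iff_dvd]
  choose c hc using h
  rw [Jd, Jd, RingHom.map_det, RingHom.map_det, ← Matrix.det_transpose,
    ← Matrix.det_transpose (φ.mapMatrix _)]
  refine Matrix.det_eq_of_forall_row_eq_smul_add_const (fun k => if k = j₀ then 0 else φ (c k)) j₀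
    (if_pos rfl) ?_
  intro i j
  rw [Matrix.transpose_apply, Matrix.transpose_apply, Matrix.transpose_apply,
    RingHom.mapMatrix_apply, RingHom.mapMatrix_apply, Matrix.map_apply, Matrix.map_apply,
    Matrix.map_apply, Matrix.of_apply, Matrix.of_apply, Matrix.of_apply, h2]
  by_cases hi : i = j₀
  · rw [if_pos hi, zero_mul, add_zero, hi, h1, h2]
  · rw [if_neg hi]
    have h3 : g i = g' i + P * c i := by rw [← hc i]; ring
    rw [h3, dp_add, dp_mul, map_add, map_add, map_mul, map_mul, hφP, zero_mul, zero_add]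

/-! ### simple poles -/

theorem not_dvd_prod {m : ℕ} {P : F[X]} (hP : Irreducible P) (s : Finset (Fin m))
    (g : Fin m → F[X]) (h : ∀ k ∈ s, ¬ P ∣ g k) : ¬ P ∣ ∏ k ∈ s, g k := by
  intro hd
  obtain ⟨k, hk, hkd⟩ := (hP.prime.dvd_finsetProd_iff _).1 hd
  exact h k hk hkd

theorem lam_pol_one {m : ℕ} {P : F[X]} (g : Fin m → F[X]) (j₀ : Fin m) (h1 : g j₀ = P)
    (w : Fin m → Option I) :
    lam (DX D) (fun k => ι (g k)) w =
      ι (Jd D g w) / (ι P * ι (∏ k ∈ Finset.univ.erase j₀, g k)) := by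
  rw [lam_pol, ← map_mul, ← h1, Finset.mul_prod_erase _ _ (Finset.mem_univ j₀)]

theorem tri {m : ℕ} {P : F[X]} (g : Fin m → F[X]) (hg : ∀ k, g k = P ∨ ¬ P ∣ g k) :
    (∀ k, ¬ P ∣ g k) ∨ (∃ i j, i ≠ j ∧ g i = g j) ∨
      ∃ j₀, g j₀ = P ∧ ∀ k, k ≠ j₀ → ¬ P ∣ g k := by
  by_cases h : ∀ k, ¬ P ∣ g k
  · exact Or.inl h
  · push Not at h
    obtain ⟨j₀, hj₀⟩ := h
    have h1 : g j₀ = P := (hg j₀).resolve_right (not_not.2 hj₀)
    by_cases h2 : ∀ k, k ≠ j₀ → ¬ P ∣ g k
    · exact Or.inr (Or.inr ⟨j₀, h1, h2⟩)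
    · push Not at h2
      obtain ⟨k, hk, hkd⟩ := h2
      have h3 : g k = P := (hg k).resolve_right (not_not.2 hkd)
      exact Or.inr (Or.inl ⟨k, j₀, hk, by rw [h3, h1]⟩)

theorem reg_lam_pol {m : ℕ} {P : F[X]} (hP : Irreducible P) (g : Fin m → F[X])
    (hg : ∀ k, ¬ P ∣ g k) (w : Fin m → Option I) : Reg P (lam (DX D) (fun k => ι (g k)) w) := by
  rw [lam_pol]
  exact ⟨_, _, not_dvd_prod hP _ g fun k _ => hg k, rfl⟩

theorem sp_pol {m : ℕ} {P : F[X]} (hP : Irreducible P) (g : Fin m → F[X])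
    (hg : ∀ k, g k = P ∨ ¬ P ∣ g k) (w : Fin m → Option I) :
    ∃ C : F[X], Comp P (lam (DX D) (fun k => ι (g k)) w) C := by
  rcases tri g hg with h | ⟨i, j, hij, h⟩ | ⟨j₀, h1, h2⟩
  · exact ⟨0, comp_zero_of_reg hP (reg_lam_pol hP g h w)⟩
  · rw [lam_eq_zero_of_eq (DX D) (fun k => ι (g k)) w hij (by simp only [h])]
    exact ⟨0, comp_zero_of_reg hP (reg_zero hP)⟩
  · rw [lam_pol_one g j₀ h1]
    have h3 : ¬ P ∣ ∏ k ∈ Finset.univ.erase j₀, g k :=
      not_dvd_prod hP _ g fun k hk => h2 k (Finset.ne_of_mem_erase hk)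
    obtain ⟨C, _, _, hC⟩ := exists_comp_div (B := Jd D g w) hP h3
    exact ⟨C, hC⟩

theorem sp_lam {m : ℕ} {P : F[X]} (hP : Irreducible P) (w : Fin m → Option I)
    (f : Fin m → RatFunc F) (hf : ∀ k, f k ≠ 0) : ∃ C : F[X], Comp P (lam (DX D) f w) C := by
  refine coord_red (fun _ => {x | x ≠ 0}) (fun _ => {x | ∃ a, x = ι a ∧ (a = P ∨ ¬ P ∣ a)}) ?_
    (fun f => ∃ C : F[X], Comp P (lam (DX D) f w) C) ?_ ?_ f hf
  · rintro k x ⟨a, rfl, ha⟩
    rcases ha with rfl | ha
    · exact ι_ne hP.ne_zero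
    · exact ι_ne (ne_of_not_dvd ha)
  · intro f j hf h
    have := gen_one hP (fun x => ∃ C : F[X], Comp P (lam (DX D) (Function.update f j x) w) C)
      ?_ ?_ (h _ ⟨P, rfl, Or.inl rfl⟩) (fun a ha => h _ ⟨a, rfl, Or.inr ha⟩) (f j) (hf j)
    · rwa [Function.update_eq_self] at this
    · rintro x y hx hy ⟨C, hC⟩ ⟨C', hC'⟩
      rw [lam_update_mul (DX D) f j hx hy]
      exact ⟨C + C', hC.add hP hC'⟩
    · rintro x hx ⟨C, hC⟩
      rw [lam_update_inv (DX D) f j hx]
      exact ⟨-C, hC.neg⟩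
  · intro f hf
    choose g hg1 hg2 using hf
    obtain rfl : f = fun k => ι (g k) := funext hg1
    exact sp_pol hP g hg2 w

/-- every element of `Lam (DX D) (q+1)` has at most a simple pole -/
theorem simple_pole_all {P : F[X]} (hP : Irreducible P) {q : ℕ}
    {H : (Fin (q + 1) → Option I) → RatFunc F} (hH : H ∈ Lam (DX D) (q + 1))
    (w : Fin (q + 1) → Option I) : ∃ C : F[X], Comp P (H w) C := by
  refine Lam_induction (DX D) (p := fun H => ∃ C : F[X], Comp P (H w) C) hH ?_ ?_ ?_ ?_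
  · intro f hf
    exact sp_lam hP w f hf
  · exact ⟨0, comp_zero_of_reg hP (reg_zero hP)⟩
  · rintro x y ⟨C, hC⟩ ⟨C', hC'⟩
    exact ⟨C + C', hC.add hP hC'⟩
  · rintro c x ⟨C, hC⟩
    refine ⟨Polynomial.C (algebraMap K F c) * C, ?_⟩
    have h1 : (c • x) w = RatFunc.C (algebraMap K F c) * x w := by
      rw [Pi.smul_apply, Algebra.smul_def]
      rfl
    rw [h1]
    exact hC.polC_mul hP _

/-! ### residue and trace -/

variable (D)

/-- the conclusion of the residue-trace lemma -/
def RT (P : F[X]) {q : ℕ} (H : (Fin (q + 1) → Option I) → RatFunc F) : Prop :=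
  ∃ Ψ ∈ Lam D q, ∀ v : Fin q → I, ∃ C : F[X],
    Comp P (H (Fin.cons none (fun k => some (v k)))) C ∧ C.coeff (P.natDegree - 1) = Ψ v

variable {D}

theorem RT_of_reg {P : F[X]} (hP : Irreducible P) {q : ℕ}
    {H : (Fin (q + 1) → Option I) → RatFunc F}
    (h : ∀ v : Fin q → I, Reg P (H (Fin.cons none (fun k => some (v k))))) : RT D P H := by
  refine ⟨0, Submodule.zero_mem _, fun v => ⟨0, comp_zero_of_reg hP (h v), ?_⟩⟩
  rw [coeff_zero]
  rfl

theorem RT_add {P : F[X]} (hP : Irreducible P) {q : ℕ}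
    {H H' : (Fin (q + 1) → Option I) → RatFunc F} (h : RT D P H) (h' : RT D P H') :
    RT D P (H + H') := by
  obtain ⟨Ψ, hΨ, h⟩ := h
  obtain ⟨Ψ', hΨ', h'⟩ := h'
  refine ⟨Ψ + Ψ', Submodule.add_mem _ hΨ hΨ', fun v => ?_⟩
  obtain ⟨C, hC, hc⟩ := h v
  obtain ⟨C', hC', hc'⟩ := h' v
  exact ⟨C + C', hC.add hP hC', by rw [coeff_add, hc, hc']; rfl⟩

theorem RT_neg {P : F[X]} {q : ℕ}
    {H : (Fin (q + 1) → Option I) → RatFunc F} (h : RT D P H) : RT D P (-H) := by
  obtain ⟨Ψ, hΨ, h⟩ := h
  refine ⟨-Ψ, Submodule.neg_mem _ hΨ, fun v => ?_⟩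
  obtain ⟨C, hC, hc⟩ := h v
  exact ⟨-C, hC.neg, by rw [coeff_neg, hc]; rfl⟩

theorem RT_smul {P : F[X]} (hP : Irreducible P) {q : ℕ}
    {H : (Fin (q + 1) → Option I) → RatFunc F} (h : RT D P H) (c : K) : RT D P (c • H) := by
  obtain ⟨Ψ, hΨ, h⟩ := h
  refine ⟨c • Ψ, Submodule.smul_mem _ _ hΨ, fun v => ?_⟩
  obtain ⟨C, hC, hc⟩ := h v
  refine ⟨Polynomial.C (algebraMap K F c) * C, ?_, ?_⟩
  · have h1 : (c • H) (Fin.cons none (fun k => some (v k))) =
        RatFunc.C (algebraMap K F c) * H (Fin.cons none (fun k => some (v k))) := by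
      rw [Pi.smul_apply, Algebra.smul_def]
      rfl
    rw [h1]
    exact hC.polC_mul hP _
  · rw [coeff_C_mul, hc, Pi.smul_apply, Algebra.smul_def]

theorem lam_C {m : ℕ} (c : Fin m → F) (v : Fin m → I) :
    lam (DX D) (fun k => ι (C (c k))) (fun k => some (v k)) = RatFunc.C (lam D c v) := by
  rw [lam, lam, RingHom.map_det]
  congr 1
  ext i j
  rw [RingHom.mapMatrix_apply, Matrix.map_apply, Matrix.of_apply, Matrix.of_apply, DX_some,
    mapD_C, map_div₀, RatFunc.algebraMap_C, RatFunc.algebraMap_C]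

/-- one entry `P`, all others constant -/
theorem RT_const {P : F[X]} (hP : Irreducible P) (hm : P.Monic) {q : ℕ}
    (g : Fin (q + 1) → F[X]) (j₀ : Fin (q + 1)) (h1 : g j₀ = P) (c : Fin q → F)
    (hc : ∀ k, c k ≠ 0) (h2 : ∀ k, g (j₀.succAbove k) = C (c k)) :
    RT D P (lam (DX D) (fun k => ι (g k))) := by
  refine ⟨((-1) ^ (j₀ : ℕ) * (P.natDegree : K)) • lam D c,
    Submodule.smul_mem _ _ (lam_mem D hc), fun v => ?_⟩
  refine ⟨derivative P * C ((-1) ^ (j₀ : ℕ) * lam D c v), ⟨?_, ?_⟩, ?_⟩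
  · refine lt_of_le_of_lt (degree_mul_le _ _) ?_
    have h3 : (derivative P).degree < P.degree := degree_derivative_lt hP.ne_zero
    calc (derivative P).degree + (C ((-1) ^ (j₀ : ℕ) * lam D c v)).degree
        ≤ (derivative P).degree + 0 := by gcongr; exact degree_C_le
      _ < P.degree := by rwa [add_zero]
  · have h4 : lam (DX D) (fun k => ι (g k)) (Fin.cons none (fun k => some (v k))) =
        ι (derivative P * C ((-1) ^ (j₀ : ℕ) * lam D c v)) / ι P := by
      rw [lam, Matrix.det_succ_row_zero, Finset.sum_eq_single j₀]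
      · have h5 : ((Matrix.of fun i j => DX D ((Fin.cons none fun k => some (v k) :
            Fin (q + 1) → Option I) i) (ι (g j)) / ι (g j)).submatrix Fin.succ
            (Fin.succAbove j₀)).det = RatFunc.C (lam D c v) := by
          rw [← lam_C, lam]
          congr 1
          ext i j
          rw [Matrix.submatrix_apply, Matrix.of_apply, Matrix.of_apply, Fin.cons_succ, h2]
        rw [h5, Matrix.of_apply, Fin.cons_zero, h1, DX_none, map_mul, RatFunc.algebraMap_C,
          map_mul, map_pow, map_neg, map_one]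
        ring
      · intro j _ hj
        obtain ⟨k, rfl⟩ := Fin.exists_succAbove_eq hj
        rw [Matrix.of_apply, Fin.cons_zero, h2, DX_none, derivative_C, map_zero, zero_div,
          mul_zero, zero_mul]
      · intro h
        exact absurd (Finset.mem_univ _) h
    rw [h4, sub_self]
    exact reg_zero hP
  · have h5 : 1 ≤ P.natDegree := hP.natDegree_pos
    rw [coeff_mul_C, coeff_derivative, Nat.sub_add_cancel h5, hm.coeff_natDegree, one_mul,
      Pi.smul_apply, Algebra.smul_def, map_mul, map_pow, map_neg, map_one, map_natCast,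
      Nat.cast_sub h5]
    push_cast
    ring

/-- changing the entries modulo `P` -/
theorem RT_mod {P : F[X]} (hP : Irreducible P) {q : ℕ}
    (g g' : Fin (q + 1) → F[X]) (j₀ : Fin (q + 1)) (h1 : g j₀ = P) (h2 : g' j₀ = P)
    (hg : ∀ k, k ≠ j₀ → ¬ P ∣ g k) (hg' : ∀ k, k ≠ j₀ → ¬ P ∣ g' k) (h : ∀ k, P ∣ g k - g' k)
    (hRT : RT D P (lam (DX D) (fun k => ι (g k)))) :
    RT D P (lam (DX D) (fun k => ι (g' k))) := by
  obtain ⟨Ψ, hΨ, hRT⟩ := hRT
  refine ⟨Ψ, hΨ, fun v => ?_⟩
  obtain ⟨C, hC, hc⟩ := hRT v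
  refine ⟨C, ?_, hc⟩
  rw [lam_pol_one g j₀ h1] at hC
  rw [lam_pol_one g' j₀ h2]
  have h3 := dvd_of_comp hP
    (not_dvd_prod hP (Finset.univ.erase j₀) g fun k hk => hg k (Finset.ne_of_mem_erase hk)) hC
  refine comp_div hP
    (not_dvd_prod hP (Finset.univ.erase j₀) g' fun k hk => hg' k (Finset.ne_of_mem_erase hk))
    hC.1 ?_
  have h4 := Jd_mod (D := D) g g' j₀ h1 h2 h (Fin.cons none (fun k => some (v k)))
  have h5 : P ∣ ∏ k ∈ Finset.univ.erase j₀, g k - ∏ k ∈ Finset.univ.erase j₀, g' k := by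
    rw [← Ideal.Quotient.eq_zero_iff_dvd, map_sub, sub_eq_zero, map_prod, map_prod]
    refine Finset.prod_congr rfl fun k _ => ?_
    rw [← sub_eq_zero, ← map_sub, Ideal.Quotient.eq_zero_iff_dvd]
    exact h k
  have h6 : C * ∏ k ∈ Finset.univ.erase j₀, g' k - Jd D g' (Fin.cons none (fun k => some (v k))) =
      (C * ∏ k ∈ Finset.univ.erase j₀, g k - Jd D g (Fin.cons none (fun k => some (v k)))) -
      C * (∏ k ∈ Finset.univ.erase j₀, g k - ∏ k ∈ Finset.univ.erase j₀, g' k) +
      (Jd D g (Fin.cons none (fun k => some (v k))) -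
        Jd D g' (Fin.cons none (fun k => some (v k)))) := by
    ring
  rw [h6]
  exact dvd_add (dvd_sub h3 (dvd_mul_of_dvd_right h5 _)) h4

theorem natDegree_Jd_le {m : ℕ} (g : Fin m → F[X]) (hg : ∀ k, (g k).Monic ∨ ∃ c, g k = C c)
    (w : Fin m → Option I) : (Jd D g w).natDegree ≤ ∑ k, ((g k).natDegree - 1) := by
  rw [Jd, Matrix.det_apply']
  refine natDegree_sum_le_of_forall_le _ _ fun σ _ => ?_
  have h1 : (((Equiv.Perm.sign σ : ℤ) : F[X])).natDegree = 0 := by
    rw [← map_intCast (C : F →+* F[X]), natDegree_C]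
  refine natDegree_mul_le.trans ?_
  rw [h1, zero_add]
  refine (natDegree_prod_le _ _).trans (Finset.sum_le_sum fun k _ => ?_)
  rw [Matrix.of_apply]
  rcases hg k with h | ⟨c, h⟩
  · exact natDegree_dp D _ h
  · rw [h, natDegree_dp_C]
    exact Nat.zero_le _

/-- the main step: entries monic irreducible of smaller degree, or constant -/
theorem RT_step {P : F[X]} (hP : Irreducible P) (hm : P.Monic) {q : ℕ}
    (ih : ∀ P' : F[X], Irreducible P' → P'.Monic → P'.natDegree < P.natDegree →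
      ∀ f : Fin (q + 1) → RatFunc F, (∀ k, f k ≠ 0) → RT D P' (lam (DX D) f))
    (g : Fin (q + 1) → F[X]) (j₀ : Fin (q + 1)) (h1 : g j₀ = P)
    (h2 : ∀ k, k ≠ j₀ → ((g k).Monic ∧ Irreducible (g k) ∧ (g k).natDegree < P.natDegree) ∨
      ∃ c, c ≠ 0 ∧ g k = C c) :
    RT D P (lam (DX D) (fun k => ι (g k))) := by
  classical
  have hne : ∀ k, g k ≠ 0 := by
    intro k
    by_cases hk : k = j₀
    · rw [hk, h1]; exact hP.ne_zero
    · rcases h2 k hk with h | ⟨c, hc, h⟩
      · exact h.2.1.ne_zero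
      · rw [h]; exact C_ne_zero.2 hc
  set T : Finset (Fin (q + 1)) := Finset.univ.filter (fun k => 1 ≤ (g k).natDegree) with hT
  have hmemT : ∀ k, k ∈ T ↔ 1 ≤ (g k).natDegree := fun k => by
    rw [hT, Finset.mem_filter]
    exact ⟨fun h => h.2, fun h => ⟨Finset.mem_univ _, h⟩⟩
  have hj₀T : j₀ ∈ T := by
    rw [hmemT, h1]
    exact hP.natDegree_pos
  have hTm : ∀ k ∈ T, (g k).Monic ∧ Irreducible (g k) ∧ (k ≠ j₀ → (g k).natDegree < P.natDegree) := by
    intro k hk
    by_cases hkj : k = j₀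
    · rw [hkj, h1]; exact ⟨hm, hP, fun h => absurd rfl h⟩
    · rcases h2 k hkj with h | ⟨c, hc, h⟩
      · exact ⟨h.1, h.2.1, fun _ => h.2.2⟩
      · rw [hmemT, h, natDegree_C] at hk
        omega
  have hTc : ∀ k, k ∉ T → ∃ c, c ≠ 0 ∧ g k = C c := by
    intro k hk
    have hkj : k ≠ j₀ := by rintro rfl; exact hk hj₀T
    rcases h2 k hkj with h | h
    · exact absurd ((hmemT k).2 h.2.1.natDegree_pos) hk
    · exact h
  by_cases hinj : ∀ k ∈ T, ∀ l ∈ T, g k = g l → k = l
  · by_cases hT1 : ∀ k, k ≠ j₀ → k ∉ T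
    · have h3 : ∀ k, ∃ c, c ≠ 0 ∧ g (j₀.succAbove k) = C c := fun k =>
        hTc _ (hT1 _ (Fin.succAbove_ne j₀ k))
      choose c hc hc' using h3
      exact RT_const hP hm g j₀ h1 c hc hc'
    · push Not at hT1
      obtain ⟨k₁, hk₁, hk₁T⟩ := hT1
      have hIH : ∀ k : Fin (q + 1), ∃ Ψ ∈ Lam D q, k ∈ T → k ≠ j₀ → ∀ v : Fin q → I, ∃ C : F[X],
          Comp (g k) (lam (DX D) (fun k => ι (g k)) (Fin.cons none (fun k => some (v k)))) C ∧
          C.coeff ((g k).natDegree - 1) = Ψ v := by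
        intro k
        by_cases hk : k ∈ T ∧ k ≠ j₀
        · obtain ⟨h3, h4, h5⟩ := hTm k hk.1
          obtain ⟨Ψ, hΨ, h6⟩ := ih (g k) h4 h3 (h5 hk.2) (fun k => ι (g k)) fun k => ι_ne (hne k)
          exact ⟨Ψ, hΨ, fun _ _ => h6⟩
        · exact ⟨0, Submodule.zero_mem _, fun h h' => absurd ⟨h, h'⟩ hk⟩
      choose Ψ hΨ hΨ' using hIH
      refine ⟨-∑ k ∈ T.erase j₀, Ψ k,
        Submodule.neg_mem _ (Submodule.sum_mem _ fun k _ => hΨ k), fun v => ?_⟩
      set w : Fin (q + 1) → Option I := Fin.cons none (fun k => some (v k)) with hw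
      obtain ⟨C₀, hC₀⟩ := sp_lam (D := D) hP w (fun k => ι (g k)) fun k => ι_ne (hne k)
      refine ⟨C₀, hC₀, ?_⟩
      have hcomp : ∀ k, ∃ C : F[X], k ∈ T → (Comp (g k) (lam (DX D) (fun k => ι (g k)) w) C ∧
          (k ≠ j₀ → C.coeff ((g k).natDegree - 1) = Ψ k v) ∧ (k = j₀ → C = C₀)) := by
        intro k
        by_cases hk : k = j₀
        · refine ⟨C₀, fun _ => ⟨?_, fun h => absurd hk h, fun _ => rfl⟩⟩
          rw [hk, h1]
          exact hC₀
        · by_cases hkT : k ∈ T
          · obtain ⟨C, hC, hC'⟩ := hΨ' k hkT hk v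
            exact ⟨C, fun _ => ⟨hC, fun _ => hC', fun h => absurd h hk⟩⟩
          · exact ⟨0, fun h => absurd h hkT⟩
      choose Cn hCn using hcomp
      have he : ∃ e : F, e ≠ 0 ∧ ∏ k ∈ Tᶜ, g k = C e := by
        have h3 : ∀ k, ∃ c : F, k ∉ T → (c ≠ 0 ∧ g k = C c) := by
          intro k
          by_cases hk : k ∈ T
          · exact ⟨0, fun h => absurd hk h⟩
          · obtain ⟨c, hc⟩ := hTc k hk
            exact ⟨c, fun _ => hc⟩
        choose c hc using h3
        refine ⟨∏ k ∈ Tᶜ, c k, Finset.prod_ne_zero_iff.2 fun k hk =>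
          (hc k (Finset.mem_compl.1 hk)).1, ?_⟩
        rw [map_prod]
        exact Finset.prod_congr rfl fun k hk => (hc k (Finset.mem_compl.1 hk)).2
      obtain ⟨e, he0, he⟩ := he
      have hy : lam (DX D) (fun k => ι (g k)) w =
          ι (C e⁻¹ * Jd D g w) / ι (∏ k ∈ T, g k) := by
        rw [lam_pol, ← Finset.prod_mul_prod_compl T g, he, map_mul, map_mul]
        have h3 : ι (C e⁻¹) * ι (C e) = 1 := by
          rw [← map_mul, ← C_mul, inv_mul_cancel₀ he0, C_1, map_one]
        have h4 : ι (∏ k ∈ T, g k) ≠ 0 := ι_ne (Finset.prod_ne_zero_iff.2 fun k _ => hne k)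
        have h5 : ι (C e) ≠ 0 := ι_ne (C_ne_zero.2 he0)
        rw [div_eq_div_iff (mul_ne_zero h4 h5) h4]
        linear_combination (-(ι (Jd D g w) * ι (∏ k ∈ T, g k))) * h3
      have hdeg : (C e⁻¹ * Jd D g w).natDegree + 2 ≤ ∑ k ∈ T, (g k).natDegree := by
        have h3 : (C e⁻¹ * Jd D g w).natDegree ≤ ∑ k, ((g k).natDegree - 1) := by
          refine (natDegree_C_mul_le _ _).trans (natDegree_Jd_le g (fun k => ?_) w)
          by_cases hk : k ∈ T
          · exact Or.inl (hTm k hk).1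
          · obtain ⟨c, _, hc⟩ := hTc k hk
            exact Or.inr ⟨c, hc⟩
        have h4 : ∑ k, ((g k).natDegree - 1) = ∑ k ∈ T, ((g k).natDegree - 1) := by
          symm
          refine Finset.sum_subset (Finset.subset_univ _) fun k _ hk => ?_
          rw [hmemT] at hk
          omega
        have h5 : ∑ k ∈ T, ((g k).natDegree - 1) + T.card = ∑ k ∈ T, (g k).natDegree := by
          rw [Finset.card_eq_sum_ones, ← Finset.sum_add_distrib]
          refine Finset.sum_congr rfl fun k hk => ?_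
          rw [hmemT] at hk
          omega
        have h6 : 1 < T.card := Finset.one_lt_card.2 ⟨j₀, hj₀T, k₁, hk₁T, hk₁.symm⟩
        omega
      have hsum := sum_top T g (fun k hk => (hTm k hk).2.1) (fun k hk => (hTm k hk).1) hinj _
        hdeg Cn (fun k hk => by rw [← hy]; exact (hCn k hk).1)
      rw [← Finset.add_sum_erase T _ hj₀T, (hCn j₀ hj₀T).2.2 rfl, h1] at hsum
      have h7 : ∑ k ∈ T.erase j₀, (Cn k).coeff ((g k).natDegree - 1) =
          ∑ k ∈ T.erase j₀, Ψ k v := by
        refine Finset.sum_congr rfl fun k hk => ?_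
        rw [Finset.mem_erase] at hk
        exact (hCn k hk.2).2.1 hk.1
      rw [h7] at hsum
      rw [Pi.neg_apply, Finset.sum_apply]
      exact eq_neg_of_add_eq_zero_left hsum
  · push Not at hinj
    obtain ⟨k, _, l, _, hkl, hne'⟩ := hinj
    refine RT_of_reg hP fun v => ?_
    rw [lam_eq_zero_of_eq (DX D) (fun k => ι (g k)) _ hne' (by simp only [hkl])]
    exact reg_zero hP

theorem RT_lam (q : ℕ) (n : ℕ) : ∀ P : F[X], Irreducible P → P.Monic → P.natDegree = n →
    ∀ f : Fin (q + 1) → RatFunc F, (∀ k, f k ≠ 0) → RT D P (lam (DX D) f) := by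
  classical
  induction n using Nat.strong_induction_on with
  | _ n ih =>
  intro P hP hm hn f hf
  have closure : ∀ (f : Fin (q + 1) → RatFunc F) (j : Fin (q + 1)),
      (∀ x y, x ≠ 0 → y ≠ 0 → RT D P (lam (DX D) (Function.update f j x)) →
        RT D P (lam (DX D) (Function.update f j y)) →
        RT D P (lam (DX D) (Function.update f j (x * y)))) := by
    intro f j x y hx hy h h'
    rw [lam_update_mul (DX D) f j hx hy]
    exact RT_add hP h h'
  refine coord_red (fun _ => {x | x ≠ 0}) (fun _ => {x | ∃ a, x = ι a ∧ (a = P ∨ ¬ P ∣ a)}) ?_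
    (fun f => RT D P (lam (DX D) f)) ?_ ?_ f hf
  · rintro k x ⟨a, rfl, ha⟩
    rcases ha with rfl | ha
    · exact ι_ne hP.ne_zero
    · exact ι_ne (ne_of_not_dvd ha)
  · intro f j hf h
    have := gen_one hP (fun x => RT D P (lam (DX D) (Function.update f j x)))
      (closure f j) ?_ (h _ ⟨P, rfl, Or.inl rfl⟩) (fun a ha => h _ ⟨a, rfl, Or.inr ha⟩) (f j) (hf j)
    · rwa [Function.update_eq_self] at this
    · intro x hx h'
      rw [lam_update_inv (DX D) f j hx]
      exact RT_neg h'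
  · intro f hf
    choose g hg1 hg2 using hf
    obtain rfl : f = fun k => ι (g k) := funext hg1
    rcases tri g hg2 with h | ⟨i, j, hij, h⟩ | ⟨j₀, h1, h2⟩
    · exact RT_of_reg hP fun v => reg_lam_pol hP g h _
    · refine RT_of_reg hP fun v => ?_
      rw [lam_eq_zero_of_eq (DX D) (fun k => ι (g k)) _ hij (by simp only [h])]
      exact reg_zero hP
    · -- reduce the other entries modulo `P`
      set g' : Fin (q + 1) → F[X] := fun k => if k = j₀ then P else g k %ₘ P with hg'
      have h3 : g' j₀ = P := if_pos rfl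
      have h4 : ∀ k, k ≠ j₀ → g' k = g k %ₘ P := fun k hk => if_neg hk
      have h5 : ∀ k, P ∣ g' k - g k := by
        intro k
        by_cases hk : k = j₀
        · rw [hk, h3, h1, sub_self]; exact dvd_zero _
        · rw [h4 k hk]
          refine ⟨-(g k /ₘ P), ?_⟩
          have := modByMonic_add_div (g k) P
          linear_combination this
      have h6 : ∀ k, k ≠ j₀ → ¬ P ∣ g' k := by
        intro k hk hd
        apply h2 k hk
        have h7 := dvd_sub hd (h5 k)
        rwa [sub_sub_cancel] at h7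
      refine RT_mod hP g' g j₀ h3 h1 h6 h2 h5 ?_
      have h8 : ∀ k, k ≠ j₀ → g' k ≠ 0 ∧ (g' k).natDegree < n := by
        intro k hk
        refine ⟨ne_of_not_dvd (h6 k hk), ?_⟩
        rw [h4 k hk, ← hn]
        exact natDegree_modByMonic_lt _ hm hP.ne_one
      refine coord_red (fun k => if k = j₀ then {P} else {a | a ≠ 0 ∧ a.natDegree < n})
        (fun k => if k = j₀ then {P} else
          {a | (a.Monic ∧ Irreducible a ∧ a.natDegree < n) ∨ ∃ c, c ≠ 0 ∧ a = C c})
        ?_ (fun g => RT D P (lam (DX D) (fun k => ι (g k)))) ?_ ?_ g' ?_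
      · intro k a ha
        by_cases hk : k = j₀
        · rw [if_pos hk] at ha ⊢
          exact ha
        · rw [if_neg hk] at ha ⊢
          rcases ha with ha | ⟨c, hc, rfl⟩
          · exact ⟨ha.2.1.ne_zero, ha.2.2⟩
          · refine ⟨C_ne_zero.2 hc, ?_⟩
            rw [natDegree_C, ← hn]
            exact hP.natDegree_pos
      · intro g j hg hstep
        by_cases hj : j = j₀
        · have h9 := hg j
          rw [if_pos hj] at h9 hstep
          have h10 := hstep (g j) h9
          rwa [Function.update_eq_self] at h10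
        · have h9 := hg j
          rw [if_neg hj] at h9 hstep
          have hup : ∀ a : F[X], (fun k => ι (Function.update g j a k)) =
              Function.update (fun k => ι (g k)) j (ι a) := by
            intro a
            funext k
            by_cases hk : k = j
            · subst hk; rw [Function.update_self, Function.update_self]
            · rw [Function.update_of_ne hk, Function.update_of_ne hk]
          have h10 := gen_two
            (fun a => RT D P (lam (DX D) (fun k => ι (Function.update g j a k)))) n ?_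
            (fun c hc => hstep _ (Or.inr ⟨c, hc, rfl⟩))
            (fun p hp hp' hd => hstep _ (Or.inl ⟨hp, hp', hd⟩)) (g j) h9.1 h9.2
          · rwa [Function.update_eq_self] at h10
          · intro a b ha hb h h'
            rw [hup] at h h' ⊢
            rw [map_mul]
            exact closure _ j _ _ (ι_ne ha) (ι_ne hb) h h'
      · intro g hg
        refine RT_step hP hm (fun P' hP' hm' hd => ih _ (hn ▸ hd) P' hP' hm' rfl) g j₀ ?_ ?_
        · have h9 := hg j₀
          rw [if_pos rfl] at h9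
          exact h9
        · intro k hk
          have h9 := hg k
          rw [if_neg hk] at h9
          rw [hn]
          exact h9
      · intro k
        by_cases hk : k = j₀
        · rw [if_pos hk, hk]
          exact h3
        · rw [if_neg hk]
          exact h8 k hk

/-- residue + trace of a logarithmic form is a logarithmic form -/
theorem res_trace_aux {P : F[X]} (hP : Irreducible P) (hm : P.Monic) {q : ℕ}
    {H : (Fin (q + 1) → Option I) → RatFunc F} (hH : H ∈ Lam (DX D) (q + 1)) :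
    ∃ Ψ ∈ Lam D q, ∀ v : Fin q → I, ∃ C : F[X],
      Comp P (H (Fin.cons none (fun k => some (v k)))) C ∧ C.coeff (P.natDegree - 1) = Ψ v := by
  refine Lam_induction (DX D) (p := fun H => RT D P H) hH ?_ ?_ ?_ ?_
  · intro f hf
    exact RT_lam q _ P hP hm rfl f hf
  · exact RT_of_reg hP fun v => reg_zero hP
  · intro x y hx hy
    exact RT_add hP hx hy
  · intro c x hx
    exact RT_smul hP hx c

variable (D)

/-- the form of the stub -/
theorem simple_pole' {P : F[X]} (hP : Irreducible P) {q : ℕ}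
    {H : (Fin (q + 1) → Option I) → RatFunc F} (hH : H ∈ Lam (DX D) (q + 1))
    (w : Fin q → Option I) : ∃ C : F[X], Comp P (H (Fin.cons none w)) C :=
  simple_pole_all hP hH _

/-- the form of the stub -/
theorem res_trace' {P : F[X]} (hP : Irreducible P) (hm : P.Monic) {q : ℕ}
    {H : (Fin (q + 1) → Option I) → RatFunc F} (hH : H ∈ Lam (DX D) (q + 1)) :
    ∃ Ψ ∈ Lam D q, ∀ v : Fin q → I, ∃ C : F[X],
      Comp P (H (Fin.cons none (fun k => some (v k)))) C ∧ C.coeff (P.natDegree - 1) = Ψ v :=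
  res_trace_aux hP hm hH

end A

end Pool.Agent.H531R2.D4
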