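import Pool.Agent.H923R2.FP.Stubs

/-! Task C2: bounds of the Chebyshev polynomials on `[-2,2]`. -/

set_option autoImplicit false

namespace Pool.Agent.H923R2.FP.T_C2

open Pool.Agent.H923R2.FP

lemma Uc_rec (l : ℝ) (m : ℕ) : Uc l (m + 2) = l * Uc l (m + 1) - Uc l m := rfl

lemma cos_rec (t : ℝ) (k : ℝ) :
    2 * Real.cos ((k + 2) * t) = 2 * Real.cos t * (2 * Real.cos ((k + 1) * t)) -
      2 * Real.cos (k * t) := by
  have e1 : (k + 2) * t = (k + 1) * t + t := by ring
  have e2 : k * t = (k + 1) * t - t := by ring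
  rw [e1, e2, Real.cos_add, Real.cos_sub]
  ring

lemma sin_rec (t : ℝ) (k : ℝ) :
    Real.sin ((k + 2) * t) = 2 * Real.cos t * Real.sin ((k + 1) * t) - Real.sin (k * t) := by
  have e1 : (k + 2) * t = (k + 1) * t + t := by ring
  have e2 : k * t = (k + 1) * t - t := by ring
  rw [e1, e2, Real.sin_add, Real.sin_sub]
  ring

lemma sin_Uc (t : ℝ) (m : ℕ) :
    Real.sin t * Uc (2 * Real.cos t) m = Real.sin (((m : ℝ) + 1) * t) := by
  induction m using Nat.twoStepInduction with
  | zero => simp [Uc]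
  | one =>
    change Real.sin t * (2 * Real.cos t) = _
    have : (((1 : ℕ) : ℝ) + 1) * t = 2 * t := by push_cast; ring
    rw [this, Real.sin_two_mul]
    ring
  | more m h1 h2 =>
    rw [Uc_rec]
    have h3 := sin_rec t ((m : ℝ) + 1)
    have e1 : ((m + 2 : ℕ) : ℝ) + 1 = (m : ℝ) + 1 + 2 := by push_cast; ring
    have e2 : ((m + 1 : ℕ) : ℝ) + 1 = (m : ℝ) + 1 + 1 := by push_cast; ring
    rw [e1, h3]
    rw [e2] at h2
    rw [← h2, ← h1]
    ring

lemma diff_Uc (t : ℝ) (m : ℕ) :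
    Uc (2 * Real.cos t) (m + 2) - Uc (2 * Real.cos t) m = 2 * Real.cos (((m : ℝ) + 2) * t) := by
  induction m using Nat.twoStepInduction with
  | zero =>
    rw [Uc_rec]
    change 2 * Real.cos t * (2 * Real.cos t) - 1 - 1 = _
    have : (((0 : ℕ) : ℝ) + 2) * t = 2 * t := by push_cast; ring
    rw [this, Real.cos_two_mul]
    ring
  | one =>
    rw [Uc_rec, Uc_rec]
    change 2 * Real.cos t * (2 * Real.cos t * (2 * Real.cos t) - 1) - 2 * Real.cos t -
      2 * Real.cos t = _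
    have : (((1 : ℕ) : ℝ) + 2) * t = 3 * t := by push_cast; ring
    rw [this, Real.cos_three_mul]
    ring
  | more m h1 h2 =>
    have h3 := cos_rec t ((m : ℝ) + 2)
    have e1 : ((m + 2 : ℕ) : ℝ) + 2 = (m : ℝ) + 2 + 2 := by push_cast; ring
    have e2 : ((m + 1 : ℕ) : ℝ) + 2 = (m : ℝ) + 2 + 1 := by push_cast; ring
    rw [e2] at h2
    rw [e1, h3, ← h2, ← h1, Uc_rec (2 * Real.cos t) (m + 2)]
    have h4 := Uc_rec (2 * Real.cos t) m
    have e3 : m + 1 + 2 = m + 2 + 1 := by ring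
    rw [e3, h4]
    ring

lemma abs_Uc (t : ℝ) (m : ℕ) : |Uc (2 * Real.cos t) m| ≤ m + 1 := by
  induction m using Nat.twoStepInduction with
  | zero => simp [Uc]
  | one =>
    change |2 * Real.cos t| ≤ _
    rw [abs_mul, abs_two]
    have := Real.abs_cos_le_one t
    push_cast
    linarith
  | more m h1 h2 =>
    have h3 := diff_Uc t m
    have h4 : Uc (2 * Real.cos t) (m + 2) =
        Uc (2 * Real.cos t) m + 2 * Real.cos (((m : ℝ) + 2) * t) := by linarith
    rw [h4]
    refine (abs_add_le _ _).trans ?_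
    have h5 : |2 * Real.cos (((m : ℝ) + 2) * t)| ≤ 2 := by
      rw [abs_mul, abs_two]
      have := Real.abs_cos_le_one (((m : ℝ) + 2) * t)
      linarith
    push_cast
    linarith

theorem t_C2 : S_C2 := by
  intro l hl m
  rw [abs_le] at hl
  have hc : Real.cos (Real.arccos (l / 2)) = l / 2 :=
    Real.cos_arccos (by linarith) (by linarith)
  set t := Real.arccos (l / 2) with ht
  have hl2 : l = 2 * Real.cos t := by linarith
  rw [hl2]
  refine ⟨abs_Uc t m, ?_⟩
  have h1 : (4 - (2 * Real.cos t) ^ 2) * Uc (2 * Real.cos t) m =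
      4 * Real.sin t * Real.sin (((m : ℝ) + 1) * t) := by
    rw [← sin_Uc t m]
    have := Real.sin_sq_add_cos_sq t
    linear_combination (-4 * Uc (2 * Real.cos t) m) * this
  rw [h1, abs_mul, abs_mul]
  have h2 := Real.abs_sin_le_one t
  have h3 := Real.abs_sin_le_one (((m : ℝ) + 1) * t)
  have h4 : |(4 : ℝ)| = 4 := by norm_num
  rw [h4]
  have h5 : |Real.sin t| * |Real.sin (((m : ℝ) + 1) * t)| ≤ 1 * 1 :=
    mul_le_mul h2 h3 (abs_nonneg _) zero_le_one
  linarith

end Pool.Agent.H923R2.FP.T_C2
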