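import Pool.Agent.H923R2.FP.Stubs

/-! Task C3: the commutator `i [P, K] = s + error`. -/

set_option autoImplicit false

namespace Pool.Agent.H923R2.FP.T_C3

open Pool.Agent.H923R2.FP

section

variable {B : Type} [Ring B] [Algebra ℂ B]

lemma diagsum (F : ℕ → ℕ → B) (f : ℕ → ℂ) (k M : ℕ) :
    ∑ m ∈ Finset.range (M + k), ∑ n ∈ Finset.range (M + k),
      (if m = n + k then f n else 0) • F m n = ∑ n ∈ Finset.range M, f n • F (n + k) n := by
  rw [Finset.sum_comm]
  have h1 : ∀ n ∈ Finset.range (M + k), ∑ m ∈ Finset.range (M + k),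
      (if m = n + k then f n else 0) • F m n = if n < M then f n • F (n + k) n else 0 := by
    intro n _
    simp only [ite_smul, zero_smul]
    rw [Finset.sum_ite_eq']
    by_cases h : n < M
    · rw [if_pos h, if_pos (Finset.mem_range.2 (by omega))]
    · rw [if_neg h, if_neg (fun h' => h (by have := Finset.mem_range.1 h'; omega))]
  rw [Finset.sum_congr rfl h1, ← Finset.sum_filter]
  congr 1
  ext n
  simp only [Finset.mem_filter, Finset.mem_range]
  omega

lemma diagsum' (F : ℕ → ℕ → B) (f : ℕ → ℂ) (k M : ℕ) :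
    ∑ m ∈ Finset.range (M + k), ∑ n ∈ Finset.range (M + k),
      (if n = m + k then f m else 0) • F m n = ∑ m ∈ Finset.range M, f m • F m (m + k) := by
  rw [Finset.sum_comm]
  exact diagsum (fun m n => F n m) f k M

lemma parts1 (ρ : ℕ → ℂ) (D : ℕ → B) (K : ℕ) :
    ∑ n ∈ Finset.range (K + 1), ρ n • (D n - D (n + 1)) =
      ρ 0 • D 0 + ∑ n ∈ Finset.range (K + 1), (if n = 0 then 0 else ρ n - ρ (n - 1)) • D n -
        ρ K • D (K + 1) := by
  induction K with
  | zero => simp [smul_sub]
  | succ K ih =>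
    rw [Finset.sum_range_succ, ih, Finset.sum_range_succ _ (K + 1)]
    rw [if_neg (Nat.succ_ne_zero K), Nat.add_sub_cancel]
    simp only [smul_sub, sub_smul]
    abel

lemma parts2 (ρ : ℕ → ℂ) (O : ℕ → B) (K : ℕ) :
    ∑ n ∈ Finset.range (K + 1), (ρ n / 2) • (O n - (if n = 0 then 0 else O (n - 1))) =
      ∑ n ∈ Finset.range K, ((ρ n - ρ (n + 1)) / 2) • O n + (ρ K / 2) • O K := by
  induction K with
  | zero => simp
  | succ K ih =>
    rw [Finset.sum_range_succ, ih, Finset.sum_range_succ _ K, if_neg (Nat.succ_ne_zero K),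
      Nat.add_sub_cancel]
    simp only [smul_sub, sub_div, sub_smul]
    abel

omit [Algebra ℂ B] in
lemma Uc_comm (P : B) (n : ℕ) : Uc P n * P = P * Uc P n := by
  induction n using Nat.twoStepInduction with
  | zero => change 1 * P = P * 1; rw [one_mul, mul_one]
  | one => rfl
  | more m h1 h2 =>
    change (P * Uc P (m + 1) - Uc P m) * P = P * (P * Uc P (m + 1) - Uc P m)
    rw [sub_mul, mul_sub, h1, mul_assoc, h2]

omit [Algebra ℂ B] in
lemma P_Uc (P : B) (m : ℕ) : P * Uc P (m + 1) = Uc P (m + 2) + Uc P m := by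
  change P * Uc P (m + 1) = P * Uc P (m + 1) - Uc P m + Uc P m
  abel

end

theorem t_C3 : S_C3 := by
  intro B _ _ P s N hN
  set c : ℕ → ℕ → B := fun m n => Uc P m * s * Uc P n with hc
  set ρ : ℕ → ℂ := fun n => ((rh N n : ℝ) : ℂ) with hρ
  have hρ0 : ρ 0 = 1 := by
    have : rh N 0 = 1 := by
      unfold rh
      rw [if_pos (by omega)]
      simp
    rw [hρ]
    simp only [this, Complex.ofReal_one]
  have hρN : ∀ n, N ≤ n → ρ n = 0 := by
    intro n hn
    have : rh N n = 0 := by
      unfold rh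
      rw [if_neg (by omega)]
    rw [hρ]
    simp only [this, Complex.ofReal_zero]
  have hL0 : ∀ n, P * c 0 n = c 1 n := by
    intro n
    change P * (1 * s * Uc P n) = P * s * Uc P n
    rw [one_mul, mul_assoc]
  have hL : ∀ m n, P * c (m + 1) n = c (m + 2) n + c m n := by
    intro m n
    change P * (Uc P (m + 1) * s * Uc P n) = Uc P (m + 2) * s * Uc P n + Uc P m * s * Uc P n
    rw [← mul_assoc, ← mul_assoc, P_Uc, add_mul, add_mul]
  have hR0 : ∀ m, c m 0 * P = c m 1 := by
    intro m
    change Uc P m * s * 1 * P = Uc P m * s * P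
    rw [mul_one]
  have hR : ∀ m n, c m (n + 1) * P = c m (n + 2) + c m n := by
    intro m n
    change Uc P m * s * Uc P (n + 1) * P = Uc P m * s * Uc P (n + 2) + Uc P m * s * Uc P n
    rw [mul_assoc, Uc_comm, P_Uc, mul_add]
  -- the two double sums
  have hK : ∑ m ∈ Finset.range (N + 3), ∑ n ∈ Finset.range (N + 3), kap N m n • c m n =
      ∑ n ∈ Finset.range (N + 2), (-(Complex.I / 2) * ρ n) • c (n + 1) n +
      ∑ n ∈ Finset.range (N + 2), ((Complex.I / 2) * ρ n) • c n (n + 1) := by
    have h1 := diagsum c (fun n => -(Complex.I / 2) * ρ n) 1 (N + 2)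
    have h2 := diagsum' c (fun n => (Complex.I / 2) * ρ n) 1 (N + 2)
    rw [← h1, ← h2, ← Finset.sum_add_distrib]
    refine Finset.sum_congr rfl fun m _ => ?_
    rw [← Finset.sum_add_distrib]
    refine Finset.sum_congr rfl fun n _ => ?_
    rw [← add_smul]
    congr 1
    unfold kap
    by_cases h3 : m = n + 1
    · have h4 : ¬ n = m + 1 := by omega
      rw [if_pos h3, if_pos h3, if_neg h4, add_zero]
    · rw [if_neg h3, if_neg h3, zero_add]
  have hE : ∑ m ∈ Finset.range (N + 3), ∑ n ∈ Finset.range (N + 3), err N m n • c m n =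
      ∑ n ∈ Finset.range (N + 3), (if n = 0 then 0 else ρ n - ρ (n - 1)) • c n n +
      ∑ n ∈ Finset.range (N + 1), ((ρ n - ρ (n + 1)) / 2) • (c (n + 2) n + c n (n + 2)) := by
    have h0 := diagsum c (fun n => if n = 0 then 0 else ρ n - ρ (n - 1)) 0 (N + 3)
    have h1 := diagsum c (fun n => (ρ n - ρ (n + 1)) / 2) 2 (N + 1)
    have h2 := diagsum' c (fun n => (ρ n - ρ (n + 1)) / 2) 2 (N + 1)
    simp only [smul_add]
    rw [Finset.sum_add_distrib]
    have h0' : ∑ n ∈ Finset.range (N + 3), (if n = 0 then 0 else ρ n - ρ (n - 1)) • c n n =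
        ∑ m ∈ Finset.range (N + 3), ∑ n ∈ Finset.range (N + 3),
          (if m = n + 0 then (if n = 0 then 0 else ρ n - ρ (n - 1)) else 0) • c m n := h0.symm
    rw [h0', ← h1, ← h2, ← Finset.sum_add_distrib, ← Finset.sum_add_distrib]
    refine Finset.sum_congr rfl fun m _ => ?_
    rw [← Finset.sum_add_distrib, ← Finset.sum_add_distrib]
    refine Finset.sum_congr rfl fun n _ => ?_
    rw [← add_smul, ← add_smul]
    congr 1
    unfold err
    by_cases h3 : m = n
    · subst h3
      have h4 : ¬ m = m + 2 := by omega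
      have h5 : m = m + 0 := rfl
      rw [if_pos rfl, if_pos h5, if_neg h4, add_zero, add_zero]
      by_cases h5 : m = 0
      · rw [if_pos h5, if_pos h5]
      · rw [if_neg h5, if_neg h5, hρ]
        push_cast
        ring
    · have h3' : ¬ m = n + 0 := by omega
      rw [if_neg h3, if_neg h3', zero_add]
      by_cases h6 : m = n + 2
      · have h7 : ¬ n = m + 2 := by omega
        rw [if_pos h6, if_pos h6, if_neg h7, add_zero, hρ]
        push_cast
        ring
      · rw [if_neg h6, if_neg h6, zero_add]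
        by_cases h8 : n = m + 2
        · rw [if_pos h8, if_pos h8, hρ]
          push_cast
          ring
        · rw [if_neg h8, if_neg h8]
  have hI : Complex.I * Complex.I = -1 := Complex.I_mul_I
  have hmain : Complex.I • (P * (∑ n ∈ Finset.range (N + 2), (-(Complex.I / 2) * ρ n) • c (n + 1) n +
      ∑ n ∈ Finset.range (N + 2), ((Complex.I / 2) * ρ n) • c n (n + 1)) -
      (∑ n ∈ Finset.range (N + 2), (-(Complex.I / 2) * ρ n) • c (n + 1) n +
      ∑ n ∈ Finset.range (N + 2), ((Complex.I / 2) * ρ n) • c n (n + 1)) * P) =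
      ∑ n ∈ Finset.range (N + 2), ρ n • (c n n - c (n + 1) (n + 1)) +
      ∑ n ∈ Finset.range (N + 2), (ρ n / 2) • ((c (n + 2) n + c n (n + 2)) -
        (if n = 0 then 0 else (c (n - 1 + 2) (n - 1) + c (n - 1) (n - 1 + 2)))) := by
    rw [← Finset.sum_add_distrib, Finset.mul_sum, Finset.sum_mul, ← Finset.sum_sub_distrib,
      Finset.smul_sum, ← Finset.sum_add_distrib]
    refine Finset.sum_congr rfl fun n _ => ?_
    rw [mul_add, add_mul, mul_smul_comm, mul_smul_comm, smul_mul_assoc, smul_mul_assoc]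
    have hT : P * c (n + 1) n - c (n + 1) n * P - P * c n (n + 1) + c n (n + 1) * P =
        (2 : ℂ) • (c n n - c (n + 1) (n + 1)) + ((c (n + 2) n + c n (n + 2)) -
        (if n = 0 then 0 else (c (n - 1 + 2) (n - 1) + c (n - 1) (n - 1 + 2)))) := by
      rcases n with _ | k
      · rw [hL, hR0, hL0, hR, if_pos rfl, two_smul]
        abel
      · rw [hL, hR, hL, hR, if_neg (Nat.succ_ne_zero k), Nat.add_sub_cancel, two_smul]
        abel
    have e1 : Complex.I • ((-(Complex.I / 2) * ρ n) • (P * c (n + 1) n) +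
        (Complex.I / 2 * ρ n) • (P * c n (n + 1)) -
        ((-(Complex.I / 2) * ρ n) • (c (n + 1) n * P) +
        (Complex.I / 2 * ρ n) • (c n (n + 1) * P))) =
        (ρ n / 2) • (P * c (n + 1) n - c (n + 1) n * P - P * c n (n + 1) + c n (n + 1) * P) := by
      have e2 : Complex.I * (-(Complex.I / 2) * ρ n) = ρ n / 2 := by
        linear_combination (-(ρ n) / 2) * hI
      have e3 : Complex.I * ((Complex.I / 2) * ρ n) = -(ρ n / 2) := by
        linear_combination ((ρ n) / 2) * hI
      simp only [smul_sub, smul_add, smul_smul, e2, e3, neg_smul]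
      abel
    rw [e1, hT, smul_add, smul_smul]
    congr 2
    ring
  have hfin : Complex.I • (P * (∑ m ∈ Finset.range (N + 3), ∑ n ∈ Finset.range (N + 3),
      kap N m n • c m n) - (∑ m ∈ Finset.range (N + 3), ∑ n ∈ Finset.range (N + 3),
      kap N m n • c m n) * P) =
      s + ∑ m ∈ Finset.range (N + 3), ∑ n ∈ Finset.range (N + 3), err N m n • c m n := by
    rw [hK, hE, hmain]
    have p1 := parts1 ρ (fun n => c n n) (N + 1)
    have p2 := parts2 ρ (fun n => c (n + 2) n + c n (n + 2)) (N + 1)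
    have e1 : N + 1 + 1 = N + 2 := rfl
    rw [e1] at p1 p2
    rw [p1, p2, hρN (N + 1) (by omega), hρ0]
    have hc0 : c 0 0 = s := by
      change 1 * s * 1 = s
      rw [one_mul, mul_one]
    have e2 : ∑ n ∈ Finset.range (N + 3), (if n = 0 then 0 else ρ n - ρ (n - 1)) • c n n =
        ∑ n ∈ Finset.range (N + 2), (if n = 0 then 0 else ρ n - ρ (n - 1)) • c n n := by
      rw [Finset.sum_range_succ _ (N + 2), if_neg (by omega), hρN (N + 2) (by omega),
        hρN (N + 2 - 1) (by omega), sub_zero, zero_smul, add_zero]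
    rw [e2, hc0]
    simp only [zero_div, zero_smul, one_smul, sub_zero, add_zero]
    abel
  exact hfin

end Pool.Agent.H923R2.FP.T_C3
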