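import Pool.Agent.H923R2.FP.Stubs

/-! Task C4: the error is small. -/

set_option autoImplicit false

namespace Pool.Agent.H923R2.FP.T_C4

open Pool.Agent.H923R2.FP

/-- difference of the cutoff -/
noncomputable def d (N m : ℕ) : ℝ := rh N m - rh N (m + 1)

/-- real version of the error coefficients -/
noncomputable def errR (N m n : ℕ) : ℝ :=
  (if n = m then (if m = 0 then 0 else - d N (m - 1)) else 0) +
  (if m = n + 2 then d N n / 2 else 0) + (if n = m + 2 then d N m / 2 else 0)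

lemma err_eq (N m n : ℕ) : err N m n = ((errR N m n : ℝ) : ℂ) := by
  unfold err errR d
  by_cases h3 : m = n
  · subst h3
    have h4 : ¬ m = m + 2 := by omega
    rw [if_pos rfl, if_pos rfl, if_neg h4, add_zero, add_zero]
    by_cases h5 : m = 0
    · rw [if_pos h5, if_pos h5]; simp
    · rw [if_neg h5, if_neg h5]
      have : m - 1 + 1 = m := by omega
      rw [this]
      push_cast
      ring
  · have h3' : ¬ n = m := fun h => h3 h.symm
    rw [if_neg h3, if_neg h3', zero_add]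
    by_cases h6 : m = n + 2
    · have h7 : ¬ n = m + 2 := by omega
      rw [if_pos h6, if_pos h6, if_neg h7, add_zero]
    · rw [if_neg h6, if_neg h6, zero_add]
      by_cases h8 : n = m + 2
      · rw [if_pos h8, if_pos h8]
      · rw [if_neg h8, if_neg h8]
        simp

lemma err_symm (N m n : ℕ) : err N m n = err N n m := by
  rw [err_eq, err_eq]
  congr 1
  unfold errR
  by_cases h3 : m = n
  · subst h3; rfl
  · have h3' : ¬ n = m := fun h => h3 h.symm
    rw [if_neg h3, if_neg h3', zero_add, zero_add, add_comm]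

lemma d_eq {N m : ℕ} (h : m < N) :
    d N m = (2 - (2 * m + 1) * (1 / (N : ℝ))) * (1 / (N : ℝ)) := by
  have hN : (0 : ℝ) < N := by
    have : 0 < N := by omega
    exact_mod_cast this
  unfold d rh
  rw [if_pos h]
  by_cases h1 : m + 1 < N
  · rw [if_pos h1]
    push_cast
    field_simp
    ring
  · rw [if_neg h1]
    have h2 : (N : ℝ) = m + 1 := by
      have : N = m + 1 := by omega
      exact_mod_cast this
    have h3 : (m : ℝ) = N - 1 := by linarith
    rw [h3]
    field_simp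
    ring

lemma d_zero {N m : ℕ} (h : N ≤ m) : d N m = 0 := by
  unfold d rh
  rw [if_neg (by omega), if_neg (by omega), sub_zero]

lemma d_bd {N : ℕ} (hN : 1 ≤ N) (m : ℕ) : |d N m| ≤ 2 / N := by
  have hN' : (0 : ℝ) < N := by exact_mod_cast hN
  by_cases h : m < N
  · rw [d_eq h]
    have hm : (m : ℝ) + 1 ≤ N := by exact_mod_cast h
    have h1 : (2 * (m : ℝ) + 1) * (1 / N) ≤ 2 := by
      rw [mul_one_div, div_le_iff₀ hN']
      linarith
    have h2 : 0 ≤ (2 * (m : ℝ) + 1) * (1 / N) := by positivity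
    have h3 : (0 : ℝ) < 1 / N := by positivity
    rw [abs_of_nonneg (mul_nonneg (by linarith) h3.le)]
    have h4 : (2 : ℝ) / N = 2 * (1 / N) := by ring
    rw [h4]
    exact mul_le_mul_of_nonneg_right (by linarith) h3.le
  · rw [d_zero (by omega), abs_zero]
    positivity

lemma d_diff {N : ℕ} (hN : 1 ≤ N) (m : ℕ) : |d N m - d N (m + 1)| ≤ 2 / N ^ 2 := by
  have hN' : (0 : ℝ) < N := by exact_mod_cast hN
  have h4 : (2 : ℝ) / N ^ 2 = 2 * (1 / N) * (1 / N) := by field_simp
  by_cases h : m < N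
  · by_cases h' : m + 1 < N
    · rw [d_eq h, d_eq h', h4]
      have : ((2 : ℝ) - (2 * m + 1) * (1 / N)) * (1 / N) -
          (2 - (2 * ((m + 1 : ℕ) : ℝ) + 1) * (1 / N)) * (1 / N) = 2 * (1 / N) * (1 / N) := by
        push_cast; ring
      rw [this, abs_of_nonneg (by positivity)]
    · rw [d_eq h, d_zero (by omega), sub_zero, h4]
      have h2 : (N : ℝ) = m + 1 := by
        have : N = m + 1 := by omega
        exact_mod_cast this
      have h3 : (2 : ℝ) - (2 * m + 1) * (1 / N) = 1 / N := by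
        have h5 : (m : ℝ) = N - 1 := by linarith
        rw [h5]
        field_simp
        ring
      rw [h3, abs_of_nonneg (by positivity)]
      have h6 : (0 : ℝ) < 1 / N := by positivity
      nlinarith
  · rw [d_zero (by omega), d_zero (by omega), sub_zero, abs_zero]
    positivity

lemma row_eq {N m : ℕ} (hm : m < N + 3) (U : ℕ → ℝ) :
    ∑ n ∈ Finset.range (N + 3), errR N m n * U n =
      (if m = 0 then 0 else - d N (m - 1)) * U m +
      (if 2 ≤ m then d N (m - 2) / 2 * U (m - 2) else 0) + d N m / 2 * U (m + 2) := by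
  unfold errR
  simp only [add_mul, Finset.sum_add_distrib, ite_mul, zero_mul]
  congr 1
  · congr 1
    · rw [Finset.sum_ite_eq' (Finset.range (N + 3)) m, if_pos (Finset.mem_range.2 hm)]
    · by_cases h : 2 ≤ m
      · rw [if_pos h]
        have h1 : ∀ n ∈ Finset.range (N + 3), (if m = n + 2 then d N n / 2 * U n else 0) =
            if n = m - 2 then d N n / 2 * U n else 0 := by
          intro n _
          by_cases h2 : m = n + 2
          · rw [if_pos h2, if_pos (by omega)]
          · rw [if_neg h2, if_neg (by omega)]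
        rw [Finset.sum_congr rfl h1, Finset.sum_ite_eq' (Finset.range (N + 3)) (m - 2),
          if_pos (Finset.mem_range.2 (by omega))]
      · rw [if_neg h]
        refine Finset.sum_eq_zero fun n _ => ?_
        rw [if_neg (by omega)]
  · rw [Finset.sum_ite_eq' (Finset.range (N + 3)) (m + 2)]
    by_cases h : m + 2 < N + 3
    · rw [if_pos (Finset.mem_range.2 h)]
    · rw [if_neg (fun h' => h (Finset.mem_range.1 h')), d_zero (by omega)]
      simp

lemma Uc_four (l : ℝ) (k : ℕ) : Uc l (k + 4) = (l ^ 2 - 2) * Uc l (k + 2) - Uc l k := by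
  have e1 : Uc l (k + 4) = l * Uc l (k + 3) - Uc l (k + 2) := rfl
  have e2 : Uc l (k + 3) = l * Uc l (k + 2) - Uc l (k + 1) := rfl
  have e3 : Uc l (k + 2) = l * Uc l (k + 1) - Uc l k := rfl
  rw [e1, e2]
  linear_combination e3

lemma row_bd (hC2 : S_C2) {N m : ℕ} (hN : 1 ≤ N) (hm : m < N + 3) (l : ℝ) (hl : |l| ≤ 2) :
    |∑ n ∈ Finset.range (N + 3), errR N m n * Uc l n| ≤ 12 / N := by
  have hN' : (0 : ℝ) < N := by exact_mod_cast hN
  have hN1 : (1 : ℝ) ≤ N := by exact_mod_cast hN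
  rw [row_eq hm]
  have key : ∀ (x y a b : ℝ), |x| ≤ a → |y| ≤ b → |x * y| ≤ a * b := by
    intro x y a b hx hy
    rw [abs_mul]
    exact mul_le_mul hx hy (abs_nonneg _) ((abs_nonneg _).trans hx)
  rcases m with _ | _ | k
  · rw [if_pos rfl, if_neg (by omega), zero_mul, zero_add, zero_add]
    have h1 := key (d N 0) (Uc l (0 + 2)) _ _ (d_bd hN 0) (hC2 l hl (0 + 2)).1
    have h2 : d N 0 / 2 * Uc l (0 + 2) = (d N 0 * Uc l (0 + 2)) / 2 := by ring
    rw [h2, abs_div, abs_two]
    push_cast at h1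
    have h3 : (2 : ℝ) / N * (2 + 1) = 6 / N := by ring
    rw [h3] at h1
    have h4 : (6 : ℝ) / N / 2 ≤ 12 / N := by
      rw [div_div, div_le_div_iff₀ (by positivity) hN']
      nlinarith
    linarith
  · rw [if_neg (by omega), if_neg (by omega), add_zero]
    have h1 := key (d N 0) (Uc l 1) _ _ (d_bd hN 0) (hC2 l hl 1).1
    have h2 := key (d N 1) (Uc l 3) _ _ (d_bd hN 1) (hC2 l hl 3).1
    have h3 : -d N (0 + 1 - 1) * Uc l (0 + 1) + d N (0 + 1) / 2 * Uc l (0 + 1 + 2) =
        -(d N 0 * Uc l 1) + (d N 1 * Uc l 3) / 2 := by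
      norm_num
      ring
    rw [h3]
    refine (abs_add_le _ _).trans ?_
    rw [abs_neg, abs_div, abs_two]
    push_cast at h1 h2
    have h5 : (2 : ℝ) / N * (1 + 1) = 4 / N := by ring
    have h6 : (2 : ℝ) / N * (3 + 1) = 8 / N := by ring
    rw [h5] at h1
    rw [h6] at h2
    have h7 : (4 : ℝ) / N + 8 / N / 2 = 8 / N := by ring
    have h8 : (8 : ℝ) / N ≤ 12 / N := by gcongr; norm_num
    linarith
  · rw [if_neg (by omega), if_pos (by omega)]
    have e1 : k + 1 + 1 - 1 = k + 1 := by omega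
    have e2 : k + 1 + 1 - 2 = k := by omega
    rw [e1, e2]
    have h0 : -d N (k + 1) * Uc l (k + 1 + 1) + d N k / 2 * Uc l k +
        d N (k + 1 + 1) / 2 * Uc l (k + 1 + 1 + 2) =
        (1 / 2) * (-(d N (k + 1) * ((4 - l ^ 2) * Uc l (k + 2))) -
          ((d N (k + 1) - d N (k + 2)) * Uc l (k + 4)) + (d N k - d N (k + 1)) * Uc l k) := by
      have e3 := Uc_four l k
      have e4 : k + 1 + 1 = k + 2 := rfl
      have e5 : k + 1 + 1 + 2 = k + 4 := rfl
      rw [e4, e3]
      ring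
    rw [h0, abs_mul]
    have hk : (k : ℝ) ≤ N := by
      have : k ≤ N := by omega
      exact_mod_cast this
    have h1 := key (d N (k + 1)) ((4 - l ^ 2) * Uc l (k + 2)) _ _ (d_bd hN (k + 1))
      (hC2 l hl (k + 2)).2
    have h2 := key (d N (k + 1) - d N (k + 2)) (Uc l (k + 4)) _ _ (d_diff hN (k + 1))
      (hC2 l hl (k + 4)).1
    have h3 := key (d N k - d N (k + 1)) (Uc l k) _ _ (d_diff hN k) (hC2 l hl k).1
    have h4 : |-(d N (k + 1) * ((4 - l ^ 2) * Uc l (k + 2))) -
          ((d N (k + 1) - d N (k + 2)) * Uc l (k + 4)) + (d N k - d N (k + 1)) * Uc l k| ≤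
        2 / N * 4 + 2 / N ^ 2 * (((k + 4 : ℕ) : ℝ) + 1) + 2 / N ^ 2 * (k + 1) := by
      refine (abs_add_le _ _).trans (add_le_add ?_ h3)
      refine (abs_sub _ _).trans (add_le_add ?_ h2)
      rw [abs_neg]
      exact h1
    have h5 : |(1 / 2 : ℝ)| = 1 / 2 := by norm_num
    rw [h5]
    have h6 : (2 : ℝ) / N * 4 + 2 / N ^ 2 * (((k + 4 : ℕ) : ℝ) + 1) + 2 / N ^ 2 * (k + 1) ≤
        24 / N := by
      push_cast
      have h7 : (2 : ℝ) / N * 4 + 2 / N ^ 2 * ((k : ℝ) + 4 + 1) + 2 / N ^ 2 * (k + 1) =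
          (8 * N + 4 * k + 12) / N ^ 2 := by
        field_simp
        ring
      rw [h7, div_le_div_iff₀ (by positivity) hN']
      nlinarith
    have h8 : (24 : ℝ) / N = 2 * (12 / N) := by ring
    rw [h8] at h6
    linarith

theorem t_C4 (hC2 : S_C2) : S_C4 := by
  intro ε hε
  obtain ⟨N, hN⟩ := exists_nat_ge (576 / ε ^ 2)
  refine ⟨N + 1, by omega, hε.le, ?_⟩
  set M := N + 1 with hM
  have hM1 : 1 ≤ M := by omega
  have hM' : (0 : ℝ) < M := by exact_mod_cast hM1
  have hM2 : 576 / ε ^ 2 ≤ (M : ℝ) := by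
    rw [hM]; push_cast; linarith
  have hbig : ∀ l : ℝ, |l| ≤ 2 → ∑ m ∈ Finset.range (M + 3),
      ‖∑ n ∈ Finset.range (M + 3), err M m n * (Uc l n : ℝ)‖ ^ 2 ≤ ε ^ 2 := by
    intro l hl
    have h1 : ∀ m ∈ Finset.range (M + 3),
        ‖∑ n ∈ Finset.range (M + 3), err M m n * (Uc l n : ℝ)‖ ^ 2 ≤ (12 / M) ^ 2 := by
      intro m hm
      have h2 : ∑ n ∈ Finset.range (M + 3), err M m n * ((Uc l n : ℝ) : ℂ) =
          ((∑ n ∈ Finset.range (M + 3), errR M m n * Uc l n : ℝ) : ℂ) := by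
        push_cast
        refine Finset.sum_congr rfl fun n _ => ?_
        rw [err_eq]
      rw [h2, Complex.norm_real, Real.norm_eq_abs]
      exact pow_le_pow_left₀ (abs_nonneg _) (row_bd hC2 hM1 (Finset.mem_range.1 hm) l hl) 2
    refine (Finset.sum_le_sum h1).trans ?_
    rw [Finset.sum_const, Finset.card_range, nsmul_eq_mul]
    have h3 : ((M + 3 : ℕ) : ℝ) ≤ 4 * M := by
      have : M + 3 ≤ 4 * M := by omega
      exact_mod_cast this
    have h4 : ((M + 3 : ℕ) : ℝ) * (12 / M) ^ 2 ≤ 4 * M * (12 / M) ^ 2 := by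
      gcongr
    have h5 : 4 * (M : ℝ) * (12 / M) ^ 2 = 576 / M := by
      field_simp
      norm_num
    rw [h5] at h4
    refine h4.trans ?_
    rw [div_le_iff₀ hM']
    rw [div_le_iff₀ (by positivity)] at hM2
    linarith
  intro l hl
  refine ⟨hbig l hl, ?_⟩
  have h6 : ∀ n ∈ Finset.range (M + 3),
      ‖∑ m ∈ Finset.range (M + 3), err M m n * ((Uc l m : ℝ) : ℂ)‖ ^ 2 =
      ‖∑ m ∈ Finset.range (M + 3), err M n m * ((Uc l m : ℝ) : ℂ)‖ ^ 2 := by
    intro n _
    have : ∑ m ∈ Finset.range (M + 3), err M m n * ((Uc l m : ℝ) : ℂ) =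
        ∑ m ∈ Finset.range (M + 3), err M n m * ((Uc l m : ℝ) : ℂ) :=
      Finset.sum_congr rfl fun m _ => by rw [err_symm]
    rw [this]
  rw [Finset.sum_congr rfl h6]
  exact hbig l hl

end Pool.Agent.H923R2.FP.T_C4
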