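import Pool.Agent.H923R2.FP.Stubs

/-! Task C6: functional calculus. -/

set_option autoImplicit false

open scoped ComplexConjugate

namespace Pool.Agent.H923R2.FP.T_C6

open Pool.Agent.H923R2.FP

lemma map_Uc {B C : Type} [Ring B] [Ring C] (f : B →+* C) (x : B) (n : ℕ) :
    f (Uc x n) = Uc (f x) n := by
  induction n using Nat.twoStepInduction with
  | zero => exact map_one f
  | one => rfl
  | more m h1 h2 =>
    change f (x * Uc x (m + 1) - Uc x m) = f x * Uc (f x) (m + 1) - Uc (f x) m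
    rw [map_sub, map_mul, h1, h2]

/-- the identity function on the spectrum -/
noncomputable def XX {A : Type} [CStarAlgebra A] (P : A) : C(spectrum ℂ P, ℂ) :=
  (ContinuousMap.id ℂ).restrict (spectrum ℂ P)

lemma norm_le {A : Type} [CStarAlgebra A] (P : A) (hP : star P = P) (hn : ‖P‖ ≤ 2)
    (M : ℕ) (κ : ℕ → ℕ → ℂ) (B : ℝ) (hB : ∀ l : ℝ, |l| ≤ 2 →
      ∑ m ∈ Finset.range M, ‖∑ n ∈ Finset.range M, κ m n * (Uc l n : ℝ)‖ ^ 2 ≤ B ^ 2) :
    ‖∑ m ∈ Finset.range M, star (∑ n ∈ Finset.range M, κ m n • Uc P n) *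
      (∑ n ∈ Finset.range M, κ m n • Uc P n)‖ ≤ B ^ 2 := by
  have hsa : IsSelfAdjoint P := hP
  have hnorm : IsStarNormal P := hsa.isStarNormal
  set φ : C(spectrum ℂ P, ℂ) →⋆ₐ[ℂ] A := cfcHom (R := ℂ) (a := P) hnorm with hφ
  have hX : φ (XX P) = P := cfcHom_id (R := ℂ) (a := P) hnorm
  set F : C(spectrum ℂ P, ℂ) := ∑ m ∈ Finset.range M,
    star (∑ n ∈ Finset.range M, κ m n • Uc (XX P) n) *
      (∑ n ∈ Finset.range M, κ m n • Uc (XX P) n) with hF
  have hUc : ∀ n, φ (Uc (XX P) n) = Uc P n := by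
    intro n
    have h1 := map_Uc (φ : C(spectrum ℂ P, ℂ) →+* A) (XX P) n
    have h2 : (φ : C(spectrum ℂ P, ℂ) →+* A) (XX P) = P := hX
    rw [h2] at h1
    exact h1
  have hφF : φ F = ∑ m ∈ Finset.range M, star (∑ n ∈ Finset.range M, κ m n • Uc P n) *
      (∑ n ∈ Finset.range M, κ m n • Uc P n) := by
    rw [hF, map_sum]
    refine Finset.sum_congr rfl fun m _ => ?_
    rw [map_mul, map_star, map_sum]
    have h1 : ∑ n ∈ Finset.range M, φ (κ m n • Uc (XX P) n) =
        ∑ n ∈ Finset.range M, κ m n • Uc P n :=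
      Finset.sum_congr rfl fun n _ => by rw [map_smul, hUc]
    rw [h1]
  rw [← hφF]
  refine (NonUnitalStarAlgHom.norm_apply_le φ F).trans ?_
  rw [ContinuousMap.norm_le _ (sq_nonneg B)]
  intro z
  -- the point is real
  have hz : (z : ℂ) = ((z : ℂ).re : ℂ) := hsa.mem_spectrum_eq_re z.2
  set l : ℝ := (z : ℂ).re with hl
  have hl2 : |l| ≤ 2 := by
    have h1 : ‖(z : ℂ)‖ ≤ ‖P‖ := by
      rcases subsingleton_or_nontrivial A with hA | hA
      · have h0 : (z : ℂ) ∈ (∅ : Set ℂ) := (spectrum.of_subsingleton (R := ℂ) P) ▸ z.2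
        exact absurd h0 (Set.notMem_empty _)
      · exact spectrum.norm_le_norm_of_mem z.2
    have h2 : |(z : ℂ).re| ≤ ‖(z : ℂ)‖ := Complex.abs_re_le_norm _
    linarith
  have hev : ∀ n, (Uc (XX P) n) z = ((Uc l n : ℝ) : ℂ) := by
    intro n
    have h1 := map_Uc (ContinuousMap.evalAlgHom ℂ ℂ z : C(spectrum ℂ P, ℂ) →+* ℂ) (XX P) n
    have h2 : (ContinuousMap.evalAlgHom ℂ ℂ z : C(spectrum ℂ P, ℂ) →+* ℂ) (XX P) = (l : ℂ) := by
      rw [← hz]
      rfl
    rw [h2] at h1
    have h3 := map_Uc Complex.ofRealHom l n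
    have h4 : Complex.ofRealHom l = (l : ℂ) := rfl
    rw [h4] at h3
    have h5 : (Uc (XX P) n) z = Uc (l : ℂ) n := h1
    rw [h5, ← h3]
    rfl
  have hFz : F z = ((∑ m ∈ Finset.range M,
      ‖∑ n ∈ Finset.range M, κ m n * (Uc l n : ℝ)‖ ^ 2 : ℝ) : ℂ) := by
    rw [hF, ContinuousMap.sum_apply]
    push_cast
    refine Finset.sum_congr rfl fun m _ => ?_
    rw [Pi.mul_apply, ContinuousMap.star_apply, ContinuousMap.sum_apply]
    have h1 : ∑ n ∈ Finset.range M, (κ m n • Uc (XX P) n) z =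
        ∑ n ∈ Finset.range M, κ m n * (Uc l n : ℝ) :=
      Finset.sum_congr rfl fun n _ => by
        rw [ContinuousMap.smul_apply, hev, smul_eq_mul]
    rw [h1]
    have h2 := Complex.conj_mul' (∑ n ∈ Finset.range M, κ m n * ((Uc l n : ℝ) : ℂ))
    exact h2
  rw [hFz, Complex.norm_real, Real.norm_eq_abs, abs_of_nonneg
    (Finset.sum_nonneg fun m _ => sq_nonneg _)]
  exact hB l hl2

lemma commute_Uc {B : Type} [Ring B] (x y : B) (h : Commute x y) (n : ℕ) :
    Commute (Uc x n) y := by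
  induction n using Nat.twoStepInduction with
  | zero => exact Commute.one_left y
  | one => exact h
  | more m h1 h2 =>
    change Commute (x * Uc x (m + 1) - Uc x m) y
    exact (h.mul_left h2).sub_left h1

lemma star_Uc {B : Type} [Ring B] [StarRing B] (x : B) (h : star x = x) (n : ℕ) :
    star (Uc x n) = Uc x n := by
  induction n using Nat.twoStepInduction with
  | zero => exact star_one B
  | one => exact h
  | more m h1 h2 =>
    change star (x * Uc x (m + 1) - Uc x m) = x * Uc x (m + 1) - Uc x m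
    rw [star_sub, star_mul, h1, h2, h]
    congr 1
    exact commute_Uc x x (Commute.refl x) (m + 1)

theorem t_C6 : S_C6 := by
  intro A _ P hP hn M κ B hRC
  refine ⟨norm_le P hP hn M κ B fun l hl => (hRC.2 l hl).1, ?_⟩
  have h1 := norm_le P hP hn M (fun m n => κ n m) B fun l hl => (hRC.2 l hl).2
  have h2 : ∀ n, (∑ m ∈ Finset.range M, κ m n • Uc P m) *
      star (∑ m ∈ Finset.range M, κ m n • Uc P m) =
      star (∑ m ∈ Finset.range M, κ m n • Uc P m) *
      (∑ m ∈ Finset.range M, κ m n • Uc P m) := by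
    intro n
    have hUU : ∀ i j, Commute (Uc P i) (Uc P j) := fun i j =>
      commute_Uc P _ (commute_Uc P P (Commute.refl P) j).symm i
    have h3 : star (∑ m ∈ Finset.range M, κ m n • Uc P m) =
        ∑ m ∈ Finset.range M, conj (κ m n) • Uc P m := by
      rw [star_sum]
      refine Finset.sum_congr rfl fun m _ => ?_
      rw [star_smul, star_Uc P hP]
      rfl
    rw [h3]
    have h4 : Commute (∑ m ∈ Finset.range M, κ m n • Uc P m)
        (∑ m ∈ Finset.range M, conj (κ m n) • Uc P m) := by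
      refine Commute.sum_left _ _ _ fun i _ => Commute.sum_right _ _ _ fun j _ => ?_
      exact ((hUU i j).smul_left _).smul_right _
    exact h4
  rw [Finset.sum_congr rfl fun n _ => h2 n]
  exact h1

end Pool.Agent.H923R2.FP.T_C6
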