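import Mathlib

/-!
# Binary trees and colourings of their nodes: Strahler number, height, monochromatic subtrees
-/

namespace Pool.Agent.H278R2.Ultra

/-- Binary trees with leaves labelled by `V`. -/
inductive BT (V : Type*)
  | leaf (x : V) : BT V
  | node (l r : BT V) : BT V

set_option linter.unusedSectionVars false

namespace BT

variable {V : Type*} {C : Type*} [DecidableEq V]

/-- The leftmost leaf. -/
def hd : BT V → V
  | leaf x => x
  | node l _ => hd l

/-- Set of leaves. -/
def leaves : BT V → Finset V
  | leaf x => {x}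
  | node l r => leaves l ∪ leaves r

theorem hd_mem (t : BT V) : hd t ∈ leaves t := by
  induction t with
  | leaf x => simp [hd, leaves]
  | node l r ihl ihr => simp [hd, leaves, ihl]

/-- Set of subtrees. -/
def sub : BT V → Set (BT V)
  | leaf x => {leaf x}
  | node l r => insert (node l r) (sub l ∪ sub r)

theorem self_mem_sub (t : BT V) : t ∈ sub t := by
  cases t <;> simp [sub]

theorem mem_sub_node {l r u : BT V} :
    u ∈ sub (node l r) ↔ u = node l r ∨ u ∈ sub l ∨ u ∈ sub r := by
  simp [sub]

theorem leaves_sub {t u : BT V} (h : u ∈ sub t) : leaves u ⊆ leaves t := by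
  induction t with
  | leaf x =>
    simp only [sub, Set.mem_singleton_iff] at h
    rw [h]
  | node l r ihl ihr =>
    rw [mem_sub_node] at h
    rcases h with h | h | h
    · rw [h]
    · exact (ihl h).trans Finset.subset_union_left
    · exact (ihr h).trans Finset.subset_union_right

/-- The colour of the triple (leftmost leaf of the left part, leftmost leaf of the right part, `z`)
is `i`. -/
def P (c : Finset V → C) (i : C) (z : V) : BT V → Prop
  | leaf _ => False
  | node l r => c {hd l, hd r, z} = i

open Classical in
/-- Strahler number of the tree, counting only nodes satisfying `Q`. -/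
noncomputable def dim (Q : BT V → Prop) : BT V → ℕ
  | leaf _ => 0
  | node l r => if Q (node l r) then max (max (dim Q l) (dim Q r)) (min (dim Q l) (dim Q r) + 1)
      else max (dim Q l) (dim Q r)

open Classical in
/-- Height of the tree, counting only nodes satisfying `Q`. -/
noncomputable def ht (Q : BT V → Prop) : BT V → ℕ
  | leaf _ => 0
  | node l r => if Q (node l r) then max (ht Q l) (ht Q r) + 1 else max (ht Q l) (ht Q r)

open Classical in
/-- (Size of the largest monochromatic set of leaves of colour `i` all of whose meets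
satisfy `Q`) minus one. -/
noncomputable def mu (c : Finset V → C) (i : C) : BT V → (BT V → Prop) → ℕ
  | leaf _, _ => 0
  | node l r, Q => max (max (mu c i l Q) (mu c i r Q))
      (if Q (node l r) then mu c i l (fun u => Q u ∧ P c i (hd r) u)
        + mu c i r (fun u => Q u ∧ P c i (hd l) u) + 1 else 0)

theorem dim_mono {Q Q' : BT V → Prop} (h : ∀ u, Q u → Q' u) (t : BT V) : dim Q t ≤ dim Q' t := by
  induction t with
  | leaf x => simp [dim]
  | node l r ihl ihr =>
    by_cases h1 : Q (node l r)
    · have h2 := h _ h1
      simp only [dim, h1, h2, if_true]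
      omega
    · by_cases h2 : Q' (node l r)
      · simp only [dim, h1, h2, if_true, if_false]
        omega
      · simp only [dim, h1, h2, if_false]
        omega

theorem mu_mono (c : Finset V → C) (i : C) (t : BT V) : ∀ {Q Q' : BT V → Prop},
    (∀ u, Q u → Q' u) → mu c i t Q ≤ mu c i t Q' := by
  induction t with
  | leaf x => intro Q Q' h; simp [mu]
  | node l r ihl ihr =>
    intro Q Q' h
    have a1 := ihl h
    have a2 := ihr h
    have a3 := ihl (Q := fun u => Q u ∧ P c i (hd r) u) (Q' := fun u => Q' u ∧ P c i (hd r) u)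
      (fun u hu => ⟨h u hu.1, hu.2⟩)
    have a4 := ihr (Q := fun u => Q u ∧ P c i (hd l) u) (Q' := fun u => Q' u ∧ P c i (hd l) u)
      (fun u hu => ⟨h u hu.1, hu.2⟩)
    by_cases h1 : Q (node l r)
    · have h2 := h _ h1
      simp only [mu, h1, h2, if_true]
      omega
    · simp only [mu, h1, if_false]
      omega

theorem mu_left_le (c : Finset V → C) (i : C) (l r : BT V) (Q : BT V → Prop) :
    mu c i l Q ≤ mu c i (node l r) Q := by
  simp only [mu]
  omega

theorem mu_right_le (c : Finset V → C) (i : C) (l r : BT V) (Q : BT V → Prop) :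
    mu c i r Q ≤ mu c i (node l r) Q := by
  simp only [mu]
  omega

theorem mu_add_le (c : Finset V → C) (i : C) (l r : BT V) (Q : BT V → Prop)
    (h : Q (node l r)) :
    mu c i l (fun u => Q u ∧ P c i (hd r) u) + mu c i r (fun u => Q u ∧ P c i (hd l) u) + 1
      ≤ mu c i (node l r) Q := by
  simp only [mu, h, if_true]
  omega

theorem mu_sub_le (c : Finset V → C) (i : C) {t u : BT V} (h : u ∈ sub t) (Q : BT V → Prop) :
    mu c i u Q ≤ mu c i t Q := by
  induction t with
  | leaf x =>
    simp only [sub, Set.mem_singleton_iff] at h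
    rw [h]
  | node l r ihl ihr =>
    rw [mem_sub_node] at h
    rcases h with h | h | h
    · rw [h]
    · exact (ihl h).trans (mu_left_le c i l r Q)
    · exact (ihr h).trans (mu_right_le c i l r Q)

theorem dim_add {Q Q1 Q2 : BT V → Prop} (t : BT V)
    (h : ∀ a b, node a b ∈ sub t → Q (node a b) → Q1 (node a b) ∨ Q2 (node a b)) :
    dim Q t ≤ dim Q1 t + dim Q2 t := by
  induction t with
  | leaf x => simp [dim]
  | node l r ihl ihr =>
    have b1 := ihl (fun a b hu => h a b (by rw [mem_sub_node]; exact Or.inr (Or.inl hu)))
    have b2 := ihr (fun a b hu => h a b (by rw [mem_sub_node]; exact Or.inr (Or.inr hu)))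
    have h0 := h l r (self_mem_sub _)
    by_cases hQ : Q (node l r)
    · rcases h0 hQ with h1 | h2
      · by_cases h2 : Q2 (node l r)
        · simp only [dim, hQ, h1, h2, if_true]
          omega
        · simp only [dim, hQ, h1, h2, if_true, if_false]
          omega
      · by_cases h1 : Q1 (node l r)
        · simp only [dim, hQ, h1, h2, if_true]
          omega
        · simp only [dim, hQ, h1, h2, if_true, if_false]
          omega
    · by_cases h1 : Q1 (node l r) <;> by_cases h2 : Q2 (node l r) <;>
        simp only [dim, hQ, h1, h2, if_true, if_false] <;> omega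

theorem ht_add {Q Q1 Q2 : BT V → Prop} (t : BT V)
    (h : ∀ a b, node a b ∈ sub t → Q (node a b) → Q1 (node a b) ∨ Q2 (node a b)) :
    ht Q t ≤ ht Q1 t + ht Q2 t := by
  induction t with
  | leaf x => simp [ht]
  | node l r ihl ihr =>
    have b1 := ihl (fun a b hu => h a b (by rw [mem_sub_node]; exact Or.inr (Or.inl hu)))
    have b2 := ihr (fun a b hu => h a b (by rw [mem_sub_node]; exact Or.inr (Or.inr hu)))
    have h0 := h l r (self_mem_sub _)
    by_cases hQ : Q (node l r)
    · rcases h0 hQ with h1 | h2
      · by_cases h2 : Q2 (node l r)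
        · simp only [ht, hQ, h1, h2, if_true]
          omega
        · simp only [ht, hQ, h1, h2, if_true, if_false]
          omega
      · by_cases h1 : Q1 (node l r)
        · simp only [ht, hQ, h1, h2, if_true]
          omega
        · simp only [ht, hQ, h1, h2, if_true, if_false]
          omega
    · by_cases h1 : Q1 (node l r) <;> by_cases h2 : Q2 (node l r) <;>
        simp only [ht, hQ, h1, h2, if_true, if_false] <;> omega

theorem dim_false (t : BT V) : dim (fun _ => False) t = 0 := by
  induction t with
  | leaf x => simp [dim]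
  | node l r ihl ihr => simp [dim, ihl, ihr]

theorem ht_false (t : BT V) : ht (fun _ => False) t = 0 := by
  induction t with
  | leaf x => simp [ht]
  | node l r ihl ihr => simp [ht, ihl, ihr]

theorem dim_sum {ι : Type*} (s : Finset ι) {Q : BT V → Prop} {F : ι → BT V → Prop} (t : BT V)
    (h : ∀ a b, node a b ∈ sub t → Q (node a b) → ∃ i ∈ s, F i (node a b)) :
    dim Q t ≤ ∑ i ∈ s, dim (F i) t := by
  classical
  induction s using Finset.induction_on generalizing Q with
  | empty =>
    have : dim Q t ≤ dim (fun _ => False) t + dim (fun _ => False) t := by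
      apply dim_add
      intro a b hu hQ
      obtain ⟨a, ha, _⟩ := h a b hu hQ
      simp at ha
    rw [dim_false t] at this
    simpa using this
  | insert a s ha ih =>
    rw [Finset.sum_insert ha]
    have h1 : dim Q t ≤ dim (F a) t + dim (fun u => Q u ∧ ¬ F a u) t := by
      apply dim_add
      intro x y hu hQ
      by_cases hF : F a (node x y)
      · exact Or.inl hF
      · exact Or.inr ⟨hQ, hF⟩
    have h2 : dim (fun u => Q u ∧ ¬ F a u) t ≤ ∑ a ∈ s, dim (F a) t := by
      apply ih
      intro x y hu hQ
      obtain ⟨b, hb, hF⟩ := h x y hu hQ.1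
      rw [Finset.mem_insert] at hb
      rcases hb with hb | hb
      · rw [hb] at hF
        exact absurd hF hQ.2
      · exact ⟨b, hb, hF⟩
    omega

theorem ht_sum {ι : Type*} (s : Finset ι) {Q : BT V → Prop} {F : ι → BT V → Prop} (t : BT V)
    (h : ∀ a b, node a b ∈ sub t → Q (node a b) → ∃ i ∈ s, F i (node a b)) :
    ht Q t ≤ ∑ i ∈ s, ht (F i) t := by
  classical
  induction s using Finset.induction_on generalizing Q with
  | empty =>
    have : ht Q t ≤ ht (fun _ => False) t + ht (fun _ => False) t := by
      apply ht_add
      intro a b hu hQ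
      obtain ⟨a, ha, _⟩ := h a b hu hQ
      simp at ha
    rw [ht_false t] at this
    simpa using this
  | insert a s ha ih =>
    rw [Finset.sum_insert ha]
    have h1 : ht Q t ≤ ht (F a) t + ht (fun u => Q u ∧ ¬ F a u) t := by
      apply ht_add
      intro x y hu hQ
      by_cases hF : F a (node x y)
      · exact Or.inl hF
      · exact Or.inr ⟨hQ, hF⟩
    have h2 : ht (fun u => Q u ∧ ¬ F a u) t ≤ ∑ a ∈ s, ht (F a) t := by
      apply ih
      intro x y hu hQ
      obtain ⟨b, hb, hF⟩ := h x y hu hQ.1
      rw [Finset.mem_insert] at hb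
      rcases hb with hb | hb
      · rw [hb] at hF
        exact absurd hF hQ.2
      · exact ⟨b, hb, hF⟩
    omega

/-- Two colours: the Strahler number is at most the product. -/
theorem dim_le_mul (c : Finset V → Fin 2) (t : BT V) :
    ∀ Q : BT V → Prop, dim Q t ≤ mu c 0 t Q * mu c 1 t Q := by
  induction t with
  | leaf x => intro Q; simp [dim]
  | node l r ihl ihr =>
    intro Q
    have hl := ihl Q
    have hr := ihr Q
    have ml0 := mu_left_le c 0 l r Q
    have ml1 := mu_left_le c 1 l r Q
    have mr0 := mu_right_le c 0 l r Q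
    have mr1 := mu_right_le c 1 l r Q
    have e1 : dim Q l ≤ mu c 0 (node l r) Q * mu c 1 (node l r) Q :=
      hl.trans (Nat.mul_le_mul ml0 ml1)
    have e2 : dim Q r ≤ mu c 0 (node l r) Q * mu c 1 (node l r) Q :=
      hr.trans (Nat.mul_le_mul mr0 mr1)
    by_cases hQ : Q (node l r)
    · have p0 := mu_add_le c 0 l r Q hQ
      have p1 := mu_add_le c 1 l r Q hQ
      have split : ∀ (s : BT V) (z : V), dim Q s ≤ dim (fun u => Q u ∧ P c 0 z u) s
          + dim (fun u => Q u ∧ P c 1 z u) s := by
        intro s z
        apply dim_add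
        intro a b _ hQu
        have h2 : c {hd a, hd b, z} = 0 ∨ c {hd a, hd b, z} = 1 := by
          generalize c {hd a, hd b, z} = v
          fin_cases v <;> simp
        rcases h2 with h2 | h2
        · exact Or.inl ⟨hQu, h2⟩
        · exact Or.inr ⟨hQu, h2⟩
      have sl := split l (hd r)
      have sr := split r (hd l)
      have i0 := ihl (fun u => Q u ∧ P c 0 (hd r) u)
      have i1 := ihl (fun u => Q u ∧ P c 1 (hd r) u)
      have j0 := ihr (fun u => Q u ∧ P c 0 (hd l) u)
      have j1 := ihr (fun u => Q u ∧ P c 1 (hd l) u)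
      have m01 : mu c 1 l (fun u => Q u ∧ P c 0 (hd r) u) ≤ mu c 1 (node l r) Q :=
        (mu_mono c 1 l (fun u hu => hu.1)).trans ml1
      have m10 : mu c 0 l (fun u => Q u ∧ P c 1 (hd r) u) ≤ mu c 0 (node l r) Q :=
        (mu_mono c 0 l (fun u hu => hu.1)).trans ml0
      have n01 : mu c 1 r (fun u => Q u ∧ P c 0 (hd l) u) ≤ mu c 1 (node l r) Q :=
        (mu_mono c 1 r (fun u hu => hu.1)).trans mr1
      have n10 : mu c 0 r (fun u => Q u ∧ P c 1 (hd l) u) ≤ mu c 0 (node l r) Q :=
        (mu_mono c 0 r (fun u hu => hu.1)).trans mr0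
      generalize mu c 0 (node l r) Q = R at *
      generalize mu c 1 (node l r) Q = B at *
      generalize mu c 0 l (fun u => Q u ∧ P c 0 (hd r) u) = a at *
      generalize mu c 1 l (fun u => Q u ∧ P c 1 (hd r) u) = b at *
      generalize mu c 0 r (fun u => Q u ∧ P c 0 (hd l) u) = a' at *
      generalize mu c 1 r (fun u => Q u ∧ P c 1 (hd l) u) = b' at *
      have q1 : dim Q l ≤ a * B + R * b := by
        have := Nat.mul_le_mul (le_refl a) m01
        have := Nat.mul_le_mul m10 (le_refl b)
        omega
      have q2 : dim Q r ≤ a' * B + R * b' := by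
        have := Nat.mul_le_mul (le_refl a') n01
        have := Nat.mul_le_mul n10 (le_refl b')
        omega
      have q3 : (a + a' + 1) * B ≤ R * B := Nat.mul_le_mul_right B p0
      have q4 : R * (b + b' + 1) ≤ R * B := Nat.mul_le_mul_left R p1
      have q5 : (a + a' + 1) * B = a * B + a' * B + B := by ring
      have q6 : R * (b + b' + 1) = R * b + R * b' + R := by ring
      have hmin : min (dim Q l) (dim Q r) + 1 ≤ R * B := by
        omega
      simp only [dim, hQ, if_true]
      omega
    · simp only [dim, hQ, if_false]
      omega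

theorem choose_mono' {a b a' b' : ℕ} (ha : a ≤ a') (hb : b ≤ b') :
    (a + b).choose a ≤ (a' + b').choose a' := by
  have h1 : (a + b).choose a ≤ (a + b').choose a := Nat.choose_le_choose a (by omega)
  have h2 : (a + b').choose a = (a + b').choose b' := Nat.choose_symm_add
  have h3 : (a + b').choose b' ≤ (a' + b').choose b' := Nat.choose_le_choose b' (by omega)
  have h4 : (a' + b').choose a' = (a' + b').choose b' := Nat.choose_symm_add
  omega

/-- Two colours: the height is bounded by a binomial coefficient (Erdős–Szekeres). -/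
theorem ht_le_choose (c : Finset V → Fin 2) (t : BT V) : ∀ Q : BT V → Prop,
    ht Q t + 1 ≤ (mu c 0 t Q + mu c 1 t Q).choose (mu c 0 t Q) := by
  induction t with
  | leaf x => intro Q; simp [ht, mu]
  | node l r ihl ihr =>
    intro Q
    by_cases hQ : Q (node l r)
    · have key : ∀ (s : BT V) (z : V) (ih : ∀ Q : BT V → Prop,
          ht Q s + 1 ≤ (mu c 0 s Q + mu c 1 s Q).choose (mu c 0 s Q)),
          (∀ i, mu c i s Q ≤ mu c i (node l r) Q) →
          (∀ i, mu c i s (fun u => Q u ∧ P c i z u) + 1 ≤ mu c i (node l r) Q) →
          ht Q s + 2 ≤ (mu c 0 (node l r) Q + mu c 1 (node l r) Q).choose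
            (mu c 0 (node l r) Q) := by
        intro s z ih h1 h2
        have h3 : ht Q s ≤ ht (fun u => Q u ∧ P c 0 z u) s + ht (fun u => Q u ∧ P c 1 z u) s := by
          apply ht_add
          intro a b _ hQu
          have h2 : c {hd a, hd b, z} = 0 ∨ c {hd a, hd b, z} = 1 := by
            generalize c {hd a, hd b, z} = v
            fin_cases v <;> simp
          rcases h2 with h2 | h2
          · exact Or.inl ⟨hQu, h2⟩
          · exact Or.inr ⟨hQu, h2⟩
        have i0 := ih (fun u => Q u ∧ P c 0 z u)
        have i1 := ih (fun u => Q u ∧ P c 1 z u)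
        have a0 := h2 0
        have a1 := h2 1
        have b0 : mu c 0 s (fun u => Q u ∧ P c 1 z u) ≤ mu c 0 (node l r) Q :=
          (mu_mono c 0 s (fun u hu => hu.1)).trans (h1 0)
        have b1 : mu c 1 s (fun u => Q u ∧ P c 0 z u) ≤ mu c 1 (node l r) Q :=
          (mu_mono c 1 s (fun u hu => hu.1)).trans (h1 1)
        obtain ⟨R, hR⟩ : ∃ R, mu c 0 (node l r) Q = R + 1 := ⟨mu c 0 (node l r) Q - 1, by omega⟩
        obtain ⟨B, hB⟩ : ∃ B, mu c 1 (node l r) Q = B + 1 := ⟨mu c 1 (node l r) Q - 1, by omega⟩
        rw [hR] at a0 b0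
        rw [hB] at a1 b1
        have c0 := i0.trans (choose_mono' (show _ ≤ R by omega) b1)
        have c1 := i1.trans (choose_mono' b0 (show _ ≤ B by omega))
        rw [hR, hB]
        have h4 : (R + 1 + (B + 1)).choose (R + 1)
            = (R + (B + 1)).choose R + (R + 1 + B).choose (R + 1) := by
          have h5 : R + 1 + (B + 1) = (R + B + 1) + 1 := by ring
          have h6 : R + (B + 1) = R + B + 1 := by ring
          have h7 : R + 1 + B = R + B + 1 := by ring
          rw [h5, h6, h7, Nat.choose_succ_succ]
        rw [h4]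
        omega
      have kl := key l (hd r) ihl (fun i => mu_left_le c i l r Q) (fun i => by
        have := mu_add_le c i l r Q hQ
        omega)
      have kr := key r (hd l) ihr (fun i => mu_right_le c i l r Q) (fun i => by
        have := mu_add_le c i l r Q hQ
        omega)
      simp only [ht, hQ, if_true]
      omega
    · have h1 := (ihl Q).trans (choose_mono' (mu_left_le c 0 l r Q) (mu_left_le c 1 l r Q))
      have h2 := (ihr Q).trans (choose_mono' (mu_right_le c 0 l r Q) (mu_right_le c 1 l r Q))
      simp only [ht, hQ, if_false]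
      omega

/-- The height is bounded in terms of the sizes of the monochromatic sets (Ramsey for chains). -/
theorem ht_le_pow {q : ℕ} (hq : 2 ≤ q) (c : Finset V → Fin q) (t : BT V) :
    ∀ Q : BT V → Prop, ht Q t + 1 ≤ q ^ (∑ i, mu c i t Q) := by
  induction t with
  | leaf x => intro Q; simp [ht, mu]
  | node l r ihl ihr =>
    intro Q
    by_cases hQ : Q (node l r)
    · -- a bound for a child `s` seen from `z`
      have key : ∀ (s : BT V) (z : V) (ih : ∀ Q : BT V → Prop, ht Q s + 1 ≤ q ^ (∑ i, mu c i s Q)),
          (∀ i, mu c i s Q ≤ mu c i (node l r) Q) →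
          (∀ i, mu c i s (fun u => Q u ∧ P c i z u) + 1 ≤ mu c i (node l r) Q) →
          ht Q s + 2 ≤ q ^ (∑ i, mu c i (node l r) Q) := by
        intro s z ih h1 h2
        set M := ∑ i, mu c i (node l r) Q with hM
        have hMpos : 1 ≤ M := by
          have h3 := h2 ⟨0, by omega⟩
          have h4 : mu c (⟨0, by omega⟩ : Fin q) (node l r) Q ≤ M :=
            Finset.single_le_sum (f := fun i => mu c i (node l r) Q) (fun i _ => Nat.zero_le _)
              (Finset.mem_univ _)
          omega
        have h3 : ht Q s ≤ ∑ i : Fin q, ht (fun u => Q u ∧ P c i z u) s := by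
          apply ht_sum
          intro a b _ hQu
          exact ⟨c {hd a, hd b, z}, Finset.mem_univ _, hQu, rfl⟩
        have h4 : ∀ i : Fin q, ht (fun u => Q u ∧ P c i z u) s + 1 ≤ q ^ (M - 1) := by
          intro i
          refine (ih _).trans (Nat.pow_le_pow_right (by omega) ?_)
          have h5 : ∑ j, mu c j s (fun u => Q u ∧ P c i z u) + 1 ≤ M := by
            rw [hM, ← Finset.add_sum_erase Finset.univ _ (Finset.mem_univ i),
              ← Finset.add_sum_erase Finset.univ (fun j => mu c j (node l r) Q)
              (Finset.mem_univ i)]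
            have h6 := h2 i
            have h7 : ∑ j ∈ Finset.univ.erase i, mu c j s (fun u => Q u ∧ P c i z u)
                ≤ ∑ j ∈ Finset.univ.erase i, mu c j (node l r) Q :=
              Finset.sum_le_sum (fun j _ => (mu_mono c j s (fun u hu => hu.1)).trans (h1 j))
            omega
          omega
        have h5 : ∑ i : Fin q, (ht (fun u => Q u ∧ P c i z u) s + 1) ≤ ∑ _i : Fin q, q ^ (M - 1) :=
          Finset.sum_le_sum (fun i _ => h4 i)
        rw [Finset.sum_add_distrib] at h5
        simp only [Finset.sum_const, Finset.card_univ, Fintype.card_fin, smul_eq_mul,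
          mul_one] at h5
        have h6 : q * q ^ (M - 1) = q ^ M := by
          rw [← pow_succ']
          congr 1
          omega
        rw [h6] at h5
        omega
      have kl := key l (hd r) ihl (fun i => mu_left_le c i l r Q) (fun i => by
        have := mu_add_le c i l r Q hQ
        omega)
      have kr := key r (hd l) ihr (fun i => mu_right_le c i l r Q) (fun i => by
        have := mu_add_le c i l r Q hQ
        omega)
      simp only [ht, hQ, if_true]
      omega
    · have h1 : q ^ (∑ i, mu c i l Q) ≤ q ^ (∑ i, mu c i (node l r) Q) :=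
        Nat.pow_le_pow_right (by omega) (Finset.sum_le_sum (fun i _ => mu_left_le c i l r Q))
      have h2 : q ^ (∑ i, mu c i r Q) ≤ q ^ (∑ i, mu c i (node l r) Q) :=
        Nat.pow_le_pow_right (by omega) (Finset.sum_le_sum (fun i _ => mu_right_le c i l r Q))
      have h3 := ihl Q
      have h4 := ihr Q
      simp only [ht, hQ, if_false]
      omega

end BT
end Pool.Agent.H278R2.Ultra
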