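import Mathlib
import Pool.Agent.H278R2.UltraTree

/-!
# Three colours: trees without large monochromatic sets have Strahler number `n ^ O(log n)`
-/

namespace Pool.Agent.H278R2.Ultra

set_option linter.unusedSectionVars false

namespace BT

variable {V : Type*} {C : Type*} [DecidableEq V]

theorem sub_trans {t u w : BT V} (h1 : w ∈ sub u) (h2 : u ∈ sub t) : w ∈ sub t := by
  induction t with
  | leaf x =>
    simp only [sub, Set.mem_singleton_iff] at h2
    rw [h2] at h1
    exact h1
  | node l r ihl ihr =>
    rw [mem_sub_node] at h2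
    rcases h2 with h | h | h
    · rw [h] at h1
      exact h1
    · rw [mem_sub_node]
      exact Or.inr (Or.inl (ihl h))
    · rw [mem_sub_node]
      exact Or.inr (Or.inr (ihr h))

theorem chain_left (c : Finset V → C) (i : C) (E : ℕ) (t : BT V) : ∀ Q : BT V → Prop,
    (∀ a b, node a b ∈ sub t → Q (node a b) →
      dim (fun u => Q u ∧ ¬ P c i (hd b) u) a ≤ E) →
    dim Q t ≤ (E + 1) * mu c i t Q := by
  induction t with
  | leaf x => intro Q _; simp [dim]
  | node l r ihl ihr =>
    intro Q h
    have hl : ∀ a b, node a b ∈ sub l → Q (node a b) →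
        dim (fun u => Q u ∧ ¬ P c i (hd b) u) a ≤ E := fun a b hu hQ =>
      h a b (by rw [mem_sub_node]; exact Or.inr (Or.inl hu)) hQ
    have hr : ∀ a b, node a b ∈ sub r → Q (node a b) →
        dim (fun u => Q u ∧ ¬ P c i (hd b) u) a ≤ E := fun a b hu hQ =>
      h a b (by rw [mem_sub_node]; exact Or.inr (Or.inr hu)) hQ
    have dl := (ihl Q hl).trans (Nat.mul_le_mul_left (E + 1) (mu_left_le c i l r Q))
    have dr := (ihr Q hr).trans (Nat.mul_le_mul_left (E + 1) (mu_right_le c i l r Q))
    by_cases hQ : Q (node l r)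
    · have h1 : dim Q l ≤ dim (fun u => Q u ∧ P c i (hd r) u) l
          + dim (fun u => Q u ∧ ¬ P c i (hd r) u) l := by
        apply dim_add
        intro a b _ hQu
        by_cases hP : P c i (hd r) (node a b)
        · exact Or.inl ⟨hQu, hP⟩
        · exact Or.inr ⟨hQu, hP⟩
      have h2 := h l r (self_mem_sub _) hQ
      have h3 := ihl (fun u => Q u ∧ P c i (hd r) u) (fun a b hu hQu =>
        (dim_mono (fun u hu => ⟨hu.1.1, hu.2⟩) a).trans (hl a b hu hQu.1))
      have h4 := mu_add_le c i l r Q hQ
      have h5 : (E + 1) * (mu c i l (fun u => Q u ∧ P c i (hd r) u) + 1)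
          ≤ (E + 1) * mu c i (node l r) Q := Nat.mul_le_mul_left _ (by omega)
      have h6 : (E + 1) * (mu c i l (fun u => Q u ∧ P c i (hd r) u) + 1)
          = (E + 1) * mu c i l (fun u => Q u ∧ P c i (hd r) u) + (E + 1) := by ring
      simp only [dim, hQ, if_true]
      omega
    · simp only [dim, hQ, if_false]
      omega

theorem chain_right (c : Finset V → C) (i : C) (E : ℕ) (t : BT V) : ∀ Q : BT V → Prop,
    (∀ a b, node a b ∈ sub t → Q (node a b) →
      dim (fun u => Q u ∧ ¬ P c i (hd a) u) b ≤ E) →
    dim Q t ≤ (E + 1) * mu c i t Q := by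
  induction t with
  | leaf x => intro Q _; simp [dim]
  | node l r ihl ihr =>
    intro Q h
    have hl : ∀ a b, node a b ∈ sub l → Q (node a b) →
        dim (fun u => Q u ∧ ¬ P c i (hd a) u) b ≤ E := fun a b hu hQ =>
      h a b (by rw [mem_sub_node]; exact Or.inr (Or.inl hu)) hQ
    have hr : ∀ a b, node a b ∈ sub r → Q (node a b) →
        dim (fun u => Q u ∧ ¬ P c i (hd a) u) b ≤ E := fun a b hu hQ =>
      h a b (by rw [mem_sub_node]; exact Or.inr (Or.inr hu)) hQ
    have dl := (ihl Q hl).trans (Nat.mul_le_mul_left (E + 1) (mu_left_le c i l r Q))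
    have dr := (ihr Q hr).trans (Nat.mul_le_mul_left (E + 1) (mu_right_le c i l r Q))
    by_cases hQ : Q (node l r)
    · have h1 : dim Q r ≤ dim (fun u => Q u ∧ P c i (hd l) u) r
          + dim (fun u => Q u ∧ ¬ P c i (hd l) u) r := by
        apply dim_add
        intro a b _ hQu
        by_cases hP : P c i (hd l) (node a b)
        · exact Or.inl ⟨hQu, hP⟩
        · exact Or.inr ⟨hQu, hP⟩
      have h2 := h l r (self_mem_sub _) hQ
      have h3 := ihr (fun u => Q u ∧ P c i (hd l) u) (fun a b hu hQu =>
        (dim_mono (fun u hu => ⟨hu.1.1, hu.2⟩) b).trans (hr a b hu hQu.1))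
      have h4 := mu_add_le c i l r Q hQ
      have h5 : (E + 1) * (mu c i r (fun u => Q u ∧ P c i (hd l) u) + 1)
          ≤ (E + 1) * mu c i (node l r) Q := Nat.mul_le_mul_left _ (by omega)
      have h6 : (E + 1) * (mu c i r (fun u => Q u ∧ P c i (hd l) u) + 1)
          = (E + 1) * mu c i r (fun u => Q u ∧ P c i (hd l) u) + (E + 1) := by ring
      simp only [dim, hQ, if_true]
      omega
    · simp only [dim, hQ, if_false]
      omega

/-- Both sides of the node `(l, r)` contain a large part of colour `i`. -/
def Good (c : Finset V → C) (Q : BT V → Prop) (e : ℕ) (l r : BT V) : Prop :=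
  ∃ i, e ≤ dim (fun u => Q u ∧ P c i (hd r) u) l ∧ e ≤ dim (fun u => Q u ∧ P c i (hd l) u) r

/-- The class of nodes such that on side `s` all colours other than `i` are small. -/
def Cls (c : Finset V → Fin 3) (Q : BT V → Prop) (e : ℕ) (p : Bool × Fin 3) : BT V → Prop
  | leaf _ => False
  | node l r => Q (node l r) ∧
      (if p.1 = true then ∀ j, j ≠ p.2 → dim (fun u => Q u ∧ P c j (hd r) u) l < e
        else ∀ j, j ≠ p.2 → dim (fun u => Q u ∧ P c j (hd l) u) r < e)

theorem Cls_imp {c : Finset V → Fin 3} {Q : BT V → Prop} {e : ℕ} {p : Bool × Fin 3} {u : BT V}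
    (h : Cls c Q e p u) : Q u := by
  cases u with
  | leaf x => exact h.elim
  | node l r => exact h.1

theorem dim_others (c : Finset V → Fin 3) (Q Q' : BT V → Prop) (hQ' : ∀ u, Q' u → Q u) (e : ℕ)
    (i : Fin 3) (z : V) (a : BT V) (h : ∀ j, j ≠ i → dim (fun u => Q u ∧ P c j z u) a < e) :
    dim (fun u => Q' u ∧ ¬ P c i z u) a ≤ 2 * (e - 1) := by
  have h1 : dim (fun u => Q' u ∧ ¬ P c i z u) a
      ≤ ∑ j ∈ Finset.univ.erase i, dim (fun u => Q u ∧ P c j z u) a := by
    apply dim_sum
    intro x y _ hxy
    refine ⟨c {hd x, hd y, z}, ?_, hQ' _ hxy.1, rfl⟩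
    rw [Finset.mem_erase]
    exact ⟨fun h => hxy.2 h, Finset.mem_univ _⟩
  have h2 : ∑ j ∈ Finset.univ.erase i, dim (fun u => Q u ∧ P c j z u) a
      ≤ (Finset.univ.erase i).card • (e - 1) := by
    apply Finset.sum_le_card_nsmul
    intro j hj
    have := h j (Finset.ne_of_mem_erase hj)
    omega
  rw [Finset.card_erase_of_mem (Finset.mem_univ i), Finset.card_univ, Fintype.card_fin,
    smul_eq_mul] at h2
  omega

theorem dim_le_of_not_good (c : Finset V → Fin 3) (Q : BT V → Prop) (e M : ℕ) (he : 1 ≤ e)
    (t : BT V) (hM : ∀ i, mu c i t Q ≤ M)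
    (hng : ∀ a b, node a b ∈ sub t → Q (node a b) → ¬ Good c Q e a b) :
    dim Q t ≤ 6 * ((2 * e - 1) * M) := by
  have h1 : dim Q t ≤ ∑ p : Bool × Fin 3, dim (Cls c Q e p) t := by
    apply dim_sum
    intro a b hab hQ
    have h2 := hng a b hab hQ
    have h3 : ∀ i, dim (fun u => Q u ∧ P c i (hd b) u) a < e ∨
        dim (fun u => Q u ∧ P c i (hd a) u) b < e := by
      intro i
      by_contra h4
      push Not at h4
      exact h2 ⟨i, h4.1, h4.2⟩
    have h0 := h3 0
    have h1 := h3 1
    have h2 := h3 2
    by_cases A0 : dim (fun u => Q u ∧ P c 0 (hd b) u) a < e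
    · by_cases A1 : dim (fun u => Q u ∧ P c 1 (hd b) u) a < e
      · refine ⟨(true, 2), Finset.mem_univ _, hQ, ?_⟩
        simp only [if_true]
        intro j hj
        fin_cases j
        · exact A0
        · exact A1
        · exact absurd rfl hj
      · by_cases A2 : dim (fun u => Q u ∧ P c 2 (hd b) u) a < e
        · refine ⟨(true, 1), Finset.mem_univ _, hQ, ?_⟩
          simp only [if_true]
          intro j hj
          fin_cases j
          · exact A0
          · exact absurd rfl hj
          · exact A2
        · refine ⟨(false, 0), Finset.mem_univ _, hQ, ?_⟩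
          simp only [Bool.false_eq_true, if_false]
          intro j hj
          fin_cases j
          · exact absurd rfl hj
          · exact h1.resolve_left A1
          · exact h2.resolve_left A2
    · by_cases A1 : dim (fun u => Q u ∧ P c 1 (hd b) u) a < e
      · by_cases A2 : dim (fun u => Q u ∧ P c 2 (hd b) u) a < e
        · refine ⟨(true, 0), Finset.mem_univ _, hQ, ?_⟩
          simp only [if_true]
          intro j hj
          fin_cases j
          · exact absurd rfl hj
          · exact A1
          · exact A2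
        · refine ⟨(false, 1), Finset.mem_univ _, hQ, ?_⟩
          simp only [Bool.false_eq_true, if_false]
          intro j hj
          fin_cases j
          · exact h0.resolve_left A0
          · exact absurd rfl hj
          · exact h2.resolve_left A2
      · refine ⟨(false, 2), Finset.mem_univ _, hQ, ?_⟩
        simp only [Bool.false_eq_true, if_false]
        intro j hj
        fin_cases j
        · exact h0.resolve_left A0
        · exact h1.resolve_left A1
        · exact absurd rfl hj
  have h2 : ∀ p : Bool × Fin 3, dim (Cls c Q e p) t ≤ (2 * e - 1) * M := by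
    rintro ⟨s, i⟩
    have h3 : mu c i t (Cls c Q e (s, i)) ≤ M :=
      (mu_mono c i t (fun u hu => Cls_imp hu)).trans (hM i)
    have h4 : dim (Cls c Q e (s, i)) t ≤ (2 * (e - 1) + 1) * mu c i t (Cls c Q e (s, i)) := by
      cases s with
      | true =>
        apply chain_left
        intro a b _ hab
        have h5 := hab.2
        simp only [if_true] at h5
        exact dim_others c Q _ (fun u hu => Cls_imp hu) e i (hd b) a h5
      | false =>
        apply chain_right
        intro a b _ hab
        have h5 := hab.2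
        simp only [Bool.false_eq_true, if_false] at h5
        exact dim_others c Q _ (fun u hu => Cls_imp hu) e i (hd a) b h5
    refine h4.trans ?_
    have h6 : 2 * (e - 1) + 1 = 2 * e - 1 := by omega
    rw [h6]
    exact Nat.mul_le_mul_left _ h3
  calc dim Q t ≤ ∑ p : Bool × Fin 3, dim (Cls c Q e p) t := h1
    _ ≤ ∑ _p : Bool × Fin 3, (2 * e - 1) * M := Finset.sum_le_sum (fun p _ => h2 p)
    _ = 6 * ((2 * e - 1) * M) := by
      rw [Finset.sum_const, Finset.card_univ, Fintype.card_prod, Fintype.card_bool,
        Fintype.card_fin, smul_eq_mul]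

theorem three_aux (c : Finset V → Fin 3) (M : ℕ) (hM1 : 1 ≤ M) (s : ℕ) :
    ∀ (k : Fin 3 → ℕ) (Q : BT V → Prop) (t : BT V), (∑ i, k i) = s →
      (∀ i, mu c i t Q ≤ M) → (12 * M) ^ s ≤ dim Q t → ∃ i, 2 ^ (k i) ≤ mu c i t Q + 1 := by
  induction s with
  | zero =>
    intro k Q t hk hM hd
    refine ⟨0, ?_⟩
    have : k 0 ≤ ∑ i, k i :=
      Finset.single_le_sum (f := k) (fun i _ => Nat.zero_le _) (Finset.mem_univ 0)
    have h0 : k 0 = 0 := by omega
    rw [h0]
    omega
  | succ s ih =>
    intro k Q t hk hM hdim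
    by_cases hz : ∃ i, k i = 0
    · obtain ⟨i, hi⟩ := hz
      exact ⟨i, by rw [hi]; omega⟩
    push Not at hz
    set e := (12 * M) ^ s with he
    have he1 : 1 ≤ e := Nat.one_le_pow _ _ (by omega)
    have hgood : ∃ a b, node a b ∈ sub t ∧ Q (node a b) ∧ Good c Q e a b := by
      by_contra hcon
      push Not at hcon
      have h1 := dim_le_of_not_good c Q e M he1 t hM hcon
      have h2 : (12 * M) ^ (s + 1) = 12 * M * e := by
        rw [pow_succ, he]
        ring
      rw [h2] at hdim
      have h3 : ∀ f : ℕ, 1 ≤ f → 6 * ((2 * f - 1) * M) + 6 * M = 12 * M * f := by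
        intro f hf
        obtain ⟨f', rfl⟩ : ∃ f', f = f' + 1 := ⟨f - 1, by omega⟩
        have : 2 * (f' + 1) - 1 = 2 * f' + 1 := by omega
        rw [this]
        ring
      have h4 := h3 e he1
      omega
    obtain ⟨a, b, hab, hQ, i, hea, heb⟩ := hgood
    have hsum : ∑ j, (if j = i then k j - 1 else k j) = s := by
      have h1 : ∑ j, (if j = i then k j - 1 else k j) + 1 = ∑ j, k j := by
        rw [← Finset.add_sum_erase Finset.univ _ (Finset.mem_univ i),
          ← Finset.add_sum_erase Finset.univ k (Finset.mem_univ i)]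
        have h2 : ∑ x ∈ Finset.univ.erase i, (if x = i then k x - 1 else k x)
            = ∑ x ∈ Finset.univ.erase i, k x := by
          apply Finset.sum_congr rfl
          intro x hx
          rw [if_neg (Finset.ne_of_mem_erase hx)]
        rw [h2]
        have := hz i
        simp only [if_true]
        omega
      omega
    have hmua : ∀ j, mu c j a (fun u => Q u ∧ P c i (hd b) u) ≤ mu c j t Q := fun j =>
      (mu_mono c j a (fun u hu => hu.1)).trans ((mu_left_le c j a b Q).trans (mu_sub_le c j hab Q))
    have hmub : ∀ j, mu c j b (fun u => Q u ∧ P c i (hd a) u) ≤ mu c j t Q := fun j =>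
      (mu_mono c j b (fun u hu => hu.1)).trans
        ((mu_right_le c j a b Q).trans (mu_sub_le c j hab Q))
    obtain ⟨ja, hja⟩ := ih (fun j => if j = i then k j - 1 else k j) _ a hsum
      (fun j => (hmua j).trans (hM j)) hea
    obtain ⟨jb, hjb⟩ := ih (fun j => if j = i then k j - 1 else k j) _ b hsum
      (fun j => (hmub j).trans (hM j)) heb
    by_cases h1 : ja = i
    · by_cases h2 : jb = i
      · subst h1
        subst h2
        refine ⟨jb, ?_⟩
        simp only [if_true] at hja hjb
        have h3 := (mu_add_le c jb a b Q hQ).trans (mu_sub_le c jb hab Q)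
        have h4 := hz jb
        have h5 : 2 ^ (k jb) = 2 ^ (k jb - 1) + 2 ^ (k jb - 1) := by
          rw [← two_mul, ← pow_succ']
          congr 1
          omega
        omega
      · refine ⟨jb, ?_⟩
        simp only [h2, if_false] at hjb
        have := hmub jb
        omega
    · refine ⟨ja, ?_⟩
      simp only [h1, if_false] at hja
      have := hmua ja
      omega

/-- Three colours: if every monochromatic set is smaller than `n`, then the Strahler number is
smaller than `(12 (n - 2)) ^ (3 ⌈log₂ n⌉)`. -/
theorem dim_lt_three (c : Finset V → Fin 3) (n : ℕ) (hn : 3 ≤ n) (Q : BT V → Prop) (t : BT V)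
    (h : ∀ i, mu c i t Q + 1 < n) : dim Q t < (12 * (n - 2)) ^ (3 * Nat.clog 2 n) := by
  by_contra hcon
  push Not at hcon
  obtain ⟨i, hi⟩ := three_aux c (n - 2) (by omega) (3 * Nat.clog 2 n) (fun _ => Nat.clog 2 n) Q t
    (by simp) (fun i => by have := h i; omega) hcon
  have h1 : n ≤ 2 ^ Nat.clog 2 n := Nat.le_pow_clog (by norm_num) n
  have h2 := h i
  omega

end BT
end Pool.Agent.H278R2.Ultra
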