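import Mathlib
import Pool.Agent.H278R2.UltraThree

/-!
# Ultrametric-local colourings of triples: reduction to coloured binary trees
-/

namespace Pool.Agent.H278R2.UltraLocal

open Pool.Agent.H278R2.Ultra Pool.Agent.H278R2.Ultra.BT

set_option linter.unusedSectionVars false

variable {V : Type*} [DecidableEq V]

/-- `ρ` is an ultrametric (with natural numbers as values). -/
structure IsUltrametric (ρ : V → V → ℕ) : Prop where
  zero_iff : ∀ x y, ρ x y = 0 ↔ x = y
  symm : ∀ x y, ρ x y = ρ y x
  tri : ∀ x y z, ρ x z ≤ max (ρ x y) (ρ y z)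

/-- The colouring `c` of triples is `ρ`-local: for distinct `x, y` and `z` with `ρ x y < ρ x z`
the colour of `{x, y, z}` does not change when `x` is replaced by `w` with `ρ x w < ρ x y`, and
does not change when `z` is replaced by `w` with `ρ z w < ρ x z`. -/
def IsLocal {q : ℕ} (ρ : V → V → ℕ) (c : Finset V → Fin q) : Prop :=
  ∀ x y z : V, x ≠ y → ρ x y < ρ x z →
    (∀ w, ρ x w < ρ x y → c {w, y, z} = c {x, y, z}) ∧
    (∀ w, ρ z w < ρ x z → c {x, y, w} = c {x, y, z})

/-- All pairs of distinct points of `S` have the same distance. -/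
def Equilateral (ρ : V → V → ℕ) (S : Finset V) : Prop :=
  ∃ D, ∀ x ∈ S, ∀ y ∈ S, x ≠ y → ρ x y = D

/-- All triples of elements of `S` have colour `i`. -/
def Mono {q : ℕ} (c : Finset V → Fin q) (i : Fin q) (S : Finset V) : Prop :=
  ∀ T ⊆ S, T.card = 3 → c T = i

/-- The binary tree `t` is realised in `(V, ρ)`. -/
def Valid (ρ : V → V → ℕ) : BT V → Prop
  | leaf _ => True
  | node l r => Valid ρ l ∧ Valid ρ r ∧ ∃ D, (∀ x ∈ leaves l, ∀ y ∈ leaves r, ρ x y = D) ∧
      (∀ x ∈ leaves l, ∀ y ∈ leaves l, ρ x y < D) ∧ (∀ x ∈ leaves r, ∀ y ∈ leaves r, ρ x y < D)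

theorem valid_sub {ρ : V → V → ℕ} {t u : BT V} (h : Valid ρ t) (hu : u ∈ sub t) :
    Valid ρ u := by
  induction t with
  | leaf x =>
    simp only [sub, Set.mem_singleton_iff] at hu
    rw [hu]
    exact h
  | node l r ihl ihr =>
    rw [mem_sub_node] at hu
    rcases hu with hu | hu | hu
    · rw [hu]
      exact h
    · exact ihl h.1 hu
    · exact ihr h.2.1 hu

/-- Locality: the colour of a triple with close pair split at the node `(a, b)`. -/
theorem move {q : ℕ} {ρ : V → V → ℕ} (hρ : IsUltrametric ρ) {c : Finset V → Fin q}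
    (hc : IsLocal ρ c) {s a b : BT V} {D : ℕ}
    (hs : ∀ x ∈ leaves s, ∀ y ∈ leaves s, ρ x y < D)
    (hv : Valid ρ (node a b)) (hab : node a b ∈ sub s) {x y z z0 : V}
    (hx : x ∈ leaves a) (hy : y ∈ leaves b) (hz : ∀ x ∈ leaves s, ρ x z = D)
    (hz0 : ρ z z0 < D) : c {x, y, z} = c {hd a, hd b, z0} := by
  obtain ⟨_, _, D', h1, h2, h3⟩ := hv
  have hsub := leaves_sub hab
  have la : leaves a ⊆ leaves s := (Finset.subset_union_left).trans hsub
  have lb : leaves b ⊆ leaves s := (Finset.subset_union_right).trans hsub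
  have hne : ∀ x ∈ leaves a, ∀ y ∈ leaves b, x ≠ y := by
    intro x hx y hy hxy
    subst hxy
    have h4 := h1 x hx x hy
    have h5 := h2 x hx x hx
    omega
  have ha := hd_mem a
  have hb := hd_mem b
  have e1 : c {hd a, y, z} = c {x, y, z} := by
    refine (hc x y z (hne x hx y hy) ?_).1 (hd a) ?_
    · rw [hz x (la hx)]
      exact hs x (la hx) y (lb hy)
    · rw [h1 x hx y hy]
      exact h2 x hx (hd a) ha
  have e2 : c {hd b, hd a, z} = c {y, hd a, z} := by
    refine (hc y (hd a) z (hne _ ha y hy).symm ?_).1 (hd b) ?_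
    · rw [hz y (lb hy)]
      exact hs y (lb hy) (hd a) (la ha)
    · rw [hρ.symm y (hd a), h1 (hd a) ha y hy]
      exact h3 y hy (hd b) hb
  have e3 : c {hd a, hd b, z0} = c {hd a, hd b, z} := by
    refine (hc (hd a) (hd b) z (hne _ ha _ hb) ?_).2 z0 ?_
    · rw [hz (hd a) (la ha)]
      exact hs _ (la ha) _ (lb hb)
    · rw [hz (hd a) (la ha)]
      exact hz0
  rw [Finset.insert_comm y (hd a)] at e2
  rw [Finset.insert_comm (hd b) (hd a)] at e2
  rw [e3, e2, e1]

/-- The number `mu` is realised by a monochromatic set of leaves. -/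
theorem realize {q : ℕ} {ρ : V → V → ℕ} (hρ : IsUltrametric ρ) {c : Finset V → Fin q}
    (hc : IsLocal ρ c) (i : Fin q) (t : BT V) : Valid ρ t → ∀ Q : BT V → Prop,
    ∃ S ⊆ leaves t, S.card = mu c i t Q + 1 ∧
      (∀ x ∈ S, ∀ y ∈ S, ∀ z ∈ S, x ≠ y → x ≠ z → y ≠ z → c {x, y, z} = i) ∧
      ∀ x ∈ S, ∀ y ∈ S, x ≠ y → ∃ a b, node a b ∈ sub t ∧ Q (node a b) ∧
        ((x ∈ leaves a ∧ y ∈ leaves b) ∨ (x ∈ leaves b ∧ y ∈ leaves a)) := by
  induction t with
  | leaf x =>
    intro _ Q
    refine ⟨{x}, by simp [leaves], by simp [mu], ?_, ?_⟩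
    · intro a ha b hb
      simp only [Finset.mem_singleton] at ha hb
      intro _ _ h
      exact absurd (ha.trans hb.symm) h
    · intro a ha b hb h
      simp only [Finset.mem_singleton] at ha hb
      exact absurd (ha.trans hb.symm) h
  | node l r ihl ihr =>
    intro hv Q
    obtain ⟨vl, vr, D, hD, hl, hr⟩ := hv
    have useLeft : ∀ m, m = mu c i l Q → ∃ S ⊆ leaves (node l r), S.card = m + 1 ∧
        (∀ x ∈ S, ∀ y ∈ S, ∀ z ∈ S, x ≠ y → x ≠ z → y ≠ z → c {x, y, z} = i) ∧
        ∀ x ∈ S, ∀ y ∈ S, x ≠ y → ∃ a b, node a b ∈ sub (node l r) ∧ Q (node a b) ∧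
          ((x ∈ leaves a ∧ y ∈ leaves b) ∨ (x ∈ leaves b ∧ y ∈ leaves a)) := by
      intro m hm
      obtain ⟨S, h1, h2, h3, h4⟩ := ihl vl Q
      refine ⟨S, h1.trans Finset.subset_union_left, by rw [hm]; exact h2, h3, ?_⟩
      intro x hx y hy hxy
      obtain ⟨a, b, h5, h6⟩ := h4 x hx y hy hxy
      exact ⟨a, b, by rw [mem_sub_node]; exact Or.inr (Or.inl h5), h6⟩
    have useRight : ∀ m, m = mu c i r Q → ∃ S ⊆ leaves (node l r), S.card = m + 1 ∧
        (∀ x ∈ S, ∀ y ∈ S, ∀ z ∈ S, x ≠ y → x ≠ z → y ≠ z → c {x, y, z} = i) ∧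
        ∀ x ∈ S, ∀ y ∈ S, x ≠ y → ∃ a b, node a b ∈ sub (node l r) ∧ Q (node a b) ∧
          ((x ∈ leaves a ∧ y ∈ leaves b) ∨ (x ∈ leaves b ∧ y ∈ leaves a)) := by
      intro m hm
      obtain ⟨S, h1, h2, h3, h4⟩ := ihr vr Q
      refine ⟨S, h1.trans Finset.subset_union_right, by rw [hm]; exact h2, h3, ?_⟩
      intro x hx y hy hxy
      obtain ⟨a, b, h5, h6⟩ := h4 x hx y hy hxy
      exact ⟨a, b, by rw [mem_sub_node]; exact Or.inr (Or.inr h5), h6⟩
    by_cases hQ : Q (node l r)
    · by_cases hmax : max (mu c i l Q) (mu c i r Q) ≤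
          mu c i l (fun u => Q u ∧ P c i (hd r) u) + mu c i r (fun u => Q u ∧ P c i (hd l) u) + 1
      · have hmu : mu c i (node l r) Q = mu c i l (fun u => Q u ∧ P c i (hd r) u)
            + mu c i r (fun u => Q u ∧ P c i (hd l) u) + 1 := by
          simp only [mu, hQ, if_true]
          omega
        obtain ⟨S, s1, s2, s3, s4⟩ := ihl vl (fun u => Q u ∧ P c i (hd r) u)
        obtain ⟨T, t1, t2, t3, t4⟩ := ihr vr (fun u => Q u ∧ P c i (hd l) u)
        have hne : ∀ x ∈ S, ∀ y ∈ T, x ≠ y := by
          intro x hx y hy hxy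
          subst hxy
          have h4 := hD x (s1 hx) x (t1 hy)
          have h5 := hl x (s1 hx) x (s1 hx)
          omega
        have hdisj : Disjoint S T := by
          rw [Finset.disjoint_left]
          intro x hx hy
          exact hne x hx x hy rfl
        have k1 : ∀ x ∈ S, ∀ y ∈ S, ∀ z ∈ T, x ≠ y → c {x, y, z} = i := by
          intro x hx y hy z hz hxy
          obtain ⟨a, b, h5, h6, h7⟩ := s4 x hx y hy hxy
          have hP : c {hd a, hd b, hd r} = i := h6.2
          have hz' : ∀ x ∈ leaves l, ρ x z = D := fun x hx => hD x hx z (t1 hz)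
          have hz0 : ρ z (hd r) < D := hr z (t1 hz) _ (hd_mem r)
          rcases h7 with ⟨hxa, hyb⟩ | ⟨hxb, hya⟩
          · rw [move hρ hc hl (valid_sub vl h5) h5 hxa hyb hz' hz0, hP]
          · rw [Finset.insert_comm, move hρ hc hl (valid_sub vl h5) h5 hya hxb hz' hz0, hP]
        have k2 : ∀ x ∈ T, ∀ y ∈ T, ∀ z ∈ S, x ≠ y → c {x, y, z} = i := by
          intro x hx y hy z hz hxy
          obtain ⟨a, b, h5, h6, h7⟩ := t4 x hx y hy hxy
          have hP : c {hd a, hd b, hd l} = i := h6.2
          have hz' : ∀ x ∈ leaves r, ρ x z = D := fun x hx => by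
            rw [hρ.symm]
            exact hD z (s1 hz) x hx
          have hz0 : ρ z (hd l) < D := hl z (s1 hz) _ (hd_mem l)
          rcases h7 with ⟨hxa, hyb⟩ | ⟨hxb, hya⟩
          · rw [move hρ hc hr (valid_sub vr h5) h5 hxa hyb hz' hz0, hP]
          · rw [Finset.insert_comm, move hρ hc hr (valid_sub vr h5) h5 hya hxb hz' hz0, hP]
        have p1 : ∀ x y z : V, ({x, y, z} : Finset V) = {z, x, y} := by
          intro x y z
          ext w
          simp only [Finset.mem_insert, Finset.mem_singleton]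
          tauto
        have p2 : ∀ x y z : V, ({x, y, z} : Finset V) = {y, z, x} := by
          intro x y z
          ext w
          simp only [Finset.mem_insert, Finset.mem_singleton]
          tauto
        have p3 : ∀ x y z : V, ({x, y, z} : Finset V) = {x, z, y} := by
          intro x y z
          ext w
          simp only [Finset.mem_insert, Finset.mem_singleton]
          tauto
        refine ⟨S ∪ T, Finset.union_subset_union s1 t1, ?_, ?_, ?_⟩
        · rw [Finset.card_union_of_disjoint hdisj, s2, t2, hmu]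
          ring
        · intro x hx y hy z hz hxy hxz hyz
          rw [Finset.mem_union] at hx hy hz
          rcases hx with hx | hx <;> rcases hy with hy | hy <;> rcases hz with hz | hz
          · exact s3 x hx y hy z hz hxy hxz hyz
          · exact k1 x hx y hy z hz hxy
          · rw [p3]
            exact k1 x hx z hz y hy hxz
          · rw [p2]
            exact k2 y hy z hz x hx hyz
          · rw [p2]
            exact k1 y hy z hz x hx hyz
          · rw [p3]
            exact k2 x hx z hz y hy hxz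
          · exact k2 x hx y hy z hz hxy
          · exact t3 x hx y hy z hz hxy hxz hyz
        · intro x hx y hy hxy
          rw [Finset.mem_union] at hx hy
          rcases hx with hx | hx <;> rcases hy with hy | hy
          · obtain ⟨a, b, h5, h6, h7⟩ := s4 x hx y hy hxy
            exact ⟨a, b, by rw [mem_sub_node]; exact Or.inr (Or.inl h5), h6.1, h7⟩
          · exact ⟨l, r, self_mem_sub _, hQ, Or.inl ⟨s1 hx, t1 hy⟩⟩
          · exact ⟨l, r, self_mem_sub _, hQ, Or.inr ⟨t1 hx, s1 hy⟩⟩
          · obtain ⟨a, b, h5, h6, h7⟩ := t4 x hx y hy hxy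
            exact ⟨a, b, by rw [mem_sub_node]; exact Or.inr (Or.inr h5), h6.1, h7⟩
      · have hmu : mu c i (node l r) Q = mu c i l Q ∨ mu c i (node l r) Q = mu c i r Q := by
          simp only [mu, hQ, if_true]
          omega
        rcases hmu with hmu | hmu
        · exact useLeft _ hmu
        · exact useRight _ hmu
    · have hmu : mu c i (node l r) Q = mu c i l Q ∨ mu c i (node l r) Q = mu c i r Q := by
        simp only [mu, hQ, if_false]
        omega
      rcases hmu with hmu | hmu
      · exact useLeft _ hmu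
      · exact useRight _ hmu

/-- Consequence: `mu + 1` is smaller than `n` if all monochromatic sets have less than `n`
elements. -/
theorem mu_lt {q : ℕ} {ρ : V → V → ℕ} (hρ : IsUltrametric ρ) {c : Finset V → Fin q}
    (hc : IsLocal ρ c) (i : Fin q) (n : ℕ) (hn : ∀ S : Finset V, Mono c i S → S.card < n)
    (t : BT V) (hv : Valid ρ t) (Q : BT V → Prop) : mu c i t Q + 1 < n := by
  obtain ⟨S, _, h2, h3, _⟩ := realize hρ hc i t hv Q
  rw [← h2]
  apply hn
  intro T hT hcard
  rw [Finset.card_eq_three] at hcard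
  obtain ⟨x, y, z, hxy, hxz, hyz, rfl⟩ := hcard
  exact h3 x (hT (by simp)) y (hT (by simp)) z (hT (by simp)) hxy hxz hyz

theorem self_zero {ρ : V → V → ℕ} (hρ : IsUltrametric ρ) (x : V) : ρ x x = 0 :=
  (hρ.zero_iff x x).2 rfl

/-- A tree with height at most `h` and Strahler number at most `d` has few leaves. -/
theorem count {ρ : V → V → ℕ} (hρ : IsUltrametric ρ) (K : ℕ)
    (hK : ∀ S : Finset V, Equilateral ρ S → S.card ≤ K) (h : ℕ) : ∀ (d : ℕ) (W : Finset V),
    W.Nonempty → (∀ t, Valid ρ t → leaves t ⊆ W →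
      ht (fun _ => True) t ≤ h ∧ dim (fun _ => True) t ≤ d) →
    W.card ≤ ((K - 1) * h + 1) ^ d := by
  induction h with
  | zero =>
    intro d W hW htree
    have h1 : W.card ≤ 1 := by
      by_contra hcon
      push Not at hcon
      obtain ⟨x, hx, y, hy, hxy⟩ := Finset.one_lt_card.1 hcon
      have h2 := (htree (node (leaf x) (leaf y)) ?_ ?_).1
      · simp [ht] at h2
      · refine ⟨trivial, trivial, ρ x y, ?_, ?_, ?_⟩
        · intro a ha b hb
          simp only [leaves, Finset.mem_singleton] at ha hb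
          rw [ha, hb]
        · intro a ha b hb
          simp only [leaves, Finset.mem_singleton] at ha hb
          rw [ha, hb, self_zero hρ, Nat.pos_iff_ne_zero]
          exact fun h => hxy ((hρ.zero_iff _ _).1 h)
        · intro a ha b hb
          simp only [leaves, Finset.mem_singleton] at ha hb
          rw [ha, hb, self_zero hρ, Nat.pos_iff_ne_zero]
          exact fun h => hxy ((hρ.zero_iff _ _).1 h)
      · intro a ha
        simp only [leaves, Finset.mem_union, Finset.mem_singleton] at ha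
        rcases ha with ha | ha <;> rw [ha] <;> assumption
    simpa using h1
  | succ h ih =>
    intro d W hW htree
    by_cases hcard : W.card ≤ 1
    · exact hcard.trans (Nat.one_le_pow _ _ (by omega))
    push Not at hcard
    obtain ⟨x', hx', y', hy', hxy'⟩ := Finset.one_lt_card.1 hcard
    obtain ⟨p, hp, hmax⟩ := Finset.exists_max_image (W ×ˢ W) (fun p => ρ p.1 p.2)
      ⟨(x', y'), by simp [hx', hy']⟩
    obtain ⟨x0, y0⟩ := p
    simp only [Finset.mem_product] at hp hmax
    obtain ⟨hx0, hy0⟩ := hp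
    set D := ρ x0 y0 with hD
    have hle : ∀ x ∈ W, ∀ y ∈ W, ρ x y ≤ D := fun x hx y hy => hmax (x, y) ⟨hx, hy⟩
    have hDpos : 0 < D := by
      have h1 := hle x' hx' y' hy'
      have h2 : ρ x' y' ≠ 0 := fun h => hxy' ((hρ.zero_iff _ _).1 h)
      omega
    -- the class of a point
    set cl : V → Finset V := fun x => W.filter (fun y => ρ x y < D) with hcl
    have mem_cl : ∀ x y, y ∈ cl x ↔ y ∈ W ∧ ρ x y < D := by
      intro x y
      simp [hcl]
    have cl_eq : ∀ x ∈ W, ∀ y ∈ W, ρ x y < D → cl x = cl y := by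
      intro x _ y _ hxy
      ext z
      rw [mem_cl, mem_cl]
      constructor
      · rintro ⟨h1, h2⟩
        refine ⟨h1, ?_⟩
        have h3 := hρ.tri y x z
        rw [hρ.symm y x] at h3
        exact lt_of_le_of_lt h3 (max_lt hxy h2)
      · rintro ⟨h1, h2⟩
        exact ⟨h1, lt_of_le_of_lt (hρ.tri x y z) (max_lt hxy h2)⟩
    have self_cl : ∀ x ∈ W, x ∈ cl x := by
      intro x hx
      rw [mem_cl, self_zero hρ]
      exact ⟨hx, hDpos⟩
    have inner : ∀ x ∈ W, ∀ y ∈ cl x, ∀ z ∈ cl x, ρ y z < D := by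
      intro x _ y hy z hz
      rw [mem_cl] at hy hz
      have h3 := hρ.tri y x z
      rw [hρ.symm y x] at h3
      exact lt_of_le_of_lt h3 (max_lt hy.2 hz.2)
    have outer : ∀ x ∈ W, ∀ y ∈ W, cl x ≠ cl y → ∀ a ∈ cl x, ∀ b ∈ cl y, ρ a b = D := by
      intro x hx y hy hne a ha b hb
      rw [mem_cl] at ha hb
      refine le_antisymm (hle a ha.1 b hb.1) ?_
      by_contra hcon
      push Not at hcon
      apply hne
      rw [cl_eq x hx a ha.1 ha.2, cl_eq a ha.1 b hb.1 hcon, cl_eq y hy b hb.1 hb.2]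
    have combine : ∀ x ∈ W, ∀ y ∈ W, cl x ≠ cl y → ∀ s t, Valid ρ s → Valid ρ t →
        leaves s ⊆ cl x → leaves t ⊆ cl y →
        Valid ρ (node s t) ∧ leaves (node s t) ⊆ W := by
      intro x hx y hy hne s t hs ht' ls lt
      refine ⟨⟨hs, ht', D, ?_, ?_, ?_⟩, ?_⟩
      · intro a ha b hb
        exact outer x hx y hy hne a (ls ha) b (lt hb)
      · intro a ha b hb
        exact inner x hx a (ls ha) b (ls hb)
      · intro a ha b hb
        exact inner y hy a (lt ha) b (lt hb)
      · intro a ha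
        simp only [leaves, Finset.mem_union] at ha
        rcases ha with ha | ha
        · exact ((mem_cl _ _).1 (ls ha)).1
        · exact ((mem_cl _ _).1 (lt ha)).1
    have other : ∀ x ∈ W, ∃ y ∈ W, cl x ≠ cl y := by
      intro x hx
      by_contra hcon
      push Not at hcon
      have h1 := self_cl x0 hx0
      rw [← hcon x0 hx0, mem_cl] at h1
      have h2 := self_cl y0 hy0
      rw [← hcon y0 hy0, mem_cl] at h2
      have h3 := hρ.tri x0 x y0
      rw [hρ.symm x0 x] at h3
      have h4 := lt_of_le_of_lt h3 (max_lt h1.2 h2.2)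
      omega
    have hht : ∀ x ∈ W, ∀ t, Valid ρ t → leaves t ⊆ cl x → ht (fun _ => True) t ≤ h := by
      intro x hx t hv hl
      obtain ⟨y, hy, hne⟩ := other x hx
      have h1 := combine x hx y hy hne t (leaf y) hv trivial hl
        (by simpa [leaves] using self_cl y hy)
      have h2 := (htree _ h1.1 h1.2).1
      simp only [ht, if_true] at h2
      omega
    have hclW : ∀ x, cl x ⊆ W := fun x y hy => ((mem_cl _ _).1 hy).1
    have hd1 : 1 ≤ d := by
      obtain ⟨y, hy, hne⟩ := other x0 hx0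
      have h1 := combine x0 hx0 y hy hne (leaf x0) (leaf y) trivial trivial
        (by simpa [leaves] using self_cl x0 hx0) (by simpa [leaves] using self_cl y hy)
      have h2 := (htree _ h1.1 h1.2).2
      simp only [dim, if_true] at h2
      omega
    obtain ⟨e, rfl⟩ : ∃ e, d = e + 1 := ⟨d - 1, by omega⟩
    -- number of classes
    set 𝒞 := W.image cl with h𝒞
    have hcover : W.card ≤ ∑ C ∈ 𝒞, C.card := by
      have h1 : W ⊆ 𝒞.biUnion id := by
        intro x hx
        rw [Finset.mem_biUnion]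
        exact ⟨cl x, Finset.mem_image_of_mem _ hx, self_cl x hx⟩
      exact (Finset.card_le_card h1).trans Finset.card_biUnion_le
    have hnum : 𝒞.card ≤ K := by
      have hrep : ∀ C : Finset V, C ∈ 𝒞 → ∃ x ∈ W, cl x = C := by
        intro C hC
        simpa [h𝒞] using hC
      classical
      let g : Finset V → V := fun C => if hC : C ∈ 𝒞 then (hrep C hC).choose else x0
      have hg : ∀ C ∈ 𝒞, g C ∈ W ∧ cl (g C) = C := by
        intro C hC
        have h1 := (hrep C hC).choose_spec
        simp only [g, dif_pos hC]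
        exact h1
      have hinj : Set.InjOn g 𝒞 := by
        intro C hC C' hC' heq
        rw [← (hg C hC).2, ← (hg C' hC').2, heq]
      rw [← Finset.card_image_of_injOn hinj]
      apply hK
      refine ⟨D, ?_⟩
      intro a ha b hb hab
      rw [Finset.mem_image] at ha hb
      obtain ⟨C, hC, rfl⟩ := ha
      obtain ⟨C', hC', rfl⟩ := hb
      have hCC : C ≠ C' := fun h => hab (by rw [h])
      have h1 := hg C hC
      have h2 := hg C' hC'
      exact outer _ h1.1 _ h2.1 (by rw [h1.2, h2.2]; exact hCC) _ (self_cl _ h1.1) _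
        (self_cl _ h2.1)
    have hK1 : 1 ≤ K := by
      have : 𝒞.Nonempty := hW.image cl
      have := this.card_pos
      omega
    obtain ⟨k, rfl⟩ : ∃ k, K = k + 1 := ⟨K - 1, by omega⟩
    have hk : k + 1 - 1 = k := by omega
    rw [hk]
    have hA : k * (h + 1) + 1 = (k * h + 1) + k := by ring
    rw [hA]
    set A := k * h + 1 with hAdef
    have ih' : ∀ (d : ℕ) (W : Finset V), W.Nonempty → (∀ t, Valid ρ t → leaves t ⊆ W →
        ht (fun _ => True) t ≤ h ∧ dim (fun _ => True) t ≤ d) → W.card ≤ A ^ d := by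
      intro d W h1 h2
      have := ih d W h1 h2
      rw [hk] at this
      exact this
    have hpow : A ^ (e + 1) + k * A ^ e ≤ (A + k) ^ (e + 1) := by
      have h1 : A ^ (e + 1) + k * A ^ e = (A + k) * A ^ e := by ring
      rw [h1, pow_succ, mul_comm]
      exact Nat.mul_le_mul_right _ (Nat.pow_le_pow_left (by omega) e)
    refine le_trans ?_ hpow
    by_cases hbig : ∃ x1 ∈ W, ∃ t1, Valid ρ t1 ∧ leaves t1 ⊆ cl x1 ∧
        e + 1 ≤ dim (fun _ => True) t1
    · obtain ⟨x1, hx1, t1, hv1, hl1, hd1'⟩ := hbig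
      have hmem : cl x1 ∈ 𝒞 := Finset.mem_image_of_mem _ hx1
      rw [← Finset.add_sum_erase 𝒞 _ hmem] at hcover
      have h1 : (cl x1).card ≤ A ^ (e + 1) := by
        apply ih' _ _ ⟨x1, self_cl x1 hx1⟩
        intro t hv hl
        exact ⟨hht x1 hx1 t hv hl, (htree t hv (hl.trans (hclW x1))).2⟩
      have h2 : ∑ C ∈ 𝒞.erase (cl x1), C.card ≤ (𝒞.erase (cl x1)).card • A ^ e := by
        apply Finset.sum_le_card_nsmul
        intro C hC
        rw [Finset.mem_erase] at hC
        obtain ⟨hne, hC⟩ := hC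
        rw [h𝒞, Finset.mem_image] at hC
        obtain ⟨x, hx, rfl⟩ := hC
        apply ih' _ _ ⟨x, self_cl x hx⟩
        intro t hv hl
        refine ⟨hht x hx t hv hl, ?_⟩
        have h3 := combine x1 hx1 x hx hne.symm t1 t hv1 hv hl1 hl
        have h4 := (htree _ h3.1 h3.2).2
        simp only [dim, if_true] at h4
        omega
      rw [Finset.card_erase_of_mem hmem, smul_eq_mul] at h2
      have h3 : (𝒞.card - 1) * A ^ e ≤ k * A ^ e := Nat.mul_le_mul_right _ (by omega)
      omega
    · push Not at hbig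
      have h2 : ∑ C ∈ 𝒞, C.card ≤ 𝒞.card • A ^ e := by
        apply Finset.sum_le_card_nsmul
        intro C hC
        rw [h𝒞, Finset.mem_image] at hC
        obtain ⟨x, hx, rfl⟩ := hC
        apply ih' _ _ ⟨x, self_cl x hx⟩
        intro t hv hl
        have := hbig x hx t hv hl
        exact ⟨hht x hx t hv hl, by omega⟩
      rw [smul_eq_mul] at h2
      have h3 : 𝒞.card * A ^ e ≤ (k + 1) * A ^ e := Nat.mul_le_mul_right _ hnum
      have h4 : (k + 1) * A ^ e = A ^ e + k * A ^ e := by ring
      have h5 : A ^ e ≤ A ^ (e + 1) := Nat.pow_le_pow_right (by omega) (by omega)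
      omega

end Pool.Agent.H278R2.UltraLocal
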